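import Pool.Agent.Lib_helper6.SRC.ZClaim

set_option autoImplicit false

/-! # The claim `(K7)`: `κ^l (1 + a y) + c p y² ∈ W` -/

namespace Pool.Agent.Lib_helper6.SRC

open Finset PowerSeries Pool.Agent.Lib_helper36.SRC

/-- the negative part of `y²` -/
lemma neg_YK_le {l : ℕ} (hl : 3 ≤ l) {μ : ℝ} (h0 : 0 ≤ μ) (h1 : μ ≤ 1 / 4) (n : ℕ) (hn1 : n ≠ 1) :
    -coeff n (YK (l / 2 + μ)) ≤ 2 * coeff n (G1 ^ l) := by
  have hl3 : (3 : ℝ) ≤ l := by exact_mod_cast hl
  obtain ⟨a, ha⟩ : ∃ a : ℝ, a = l / 2 + μ := ⟨_, rfl⟩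
  rw [← ha]
  have ha2 : 3 / 2 ≤ a := by linarith
  match n with
  | 0 => rw [coeff_YK_zero, coeff_G1_pow_zero]; norm_num
  | 1 => exact absurd rfl hn1
  | 2 =>
    have := NN_G1_pow l 2
    rw [coeff_YK_two]
    nlinarith
  | n + 3 =>
    rw [coeff_YK]
    have hf : (0 : ℝ) < (n + 3).factorial := by positivity
    have hn : (0 : ℝ) ≤ n := Nat.cast_nonneg n
    obtain ⟨N, hN⟩ : ∃ N : ℝ, N = (n : ℝ) + 3 := ⟨_, rfl⟩
    rw [← hN]
    have hN3 : 3 ≤ N := by linarith
    rw [← neg_div, div_le_iff₀ hf]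
    rcases le_or_gt N (2 * a) with hNa | hNa
    · -- small `N`
      have g1 := LE_Ex_G1_pow l (n + 3)
      rw [coeff_Ex, div_le_iff₀ hf] at g1
      have hNl : ((n + 3 : ℕ) : ℝ) ≤ l := by
        have : ((n + 3 : ℕ) : ℝ) < (l : ℝ) + 1 := by push_cast; linarith
        have h' : n + 3 < l + 1 := by exact_mod_cast this
        exact_mod_cast Nat.lt_succ_iff.1 h'
      have g2 := pow_two_aux (by linarith) (n + 3) hNl
      have g3 : a ^ (n + 3) ≤ ((l : ℝ) / 2 + 1 / 4) ^ (n + 3) :=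
        pow_le_pow_left₀ (by linarith) (by linarith) _
      have b4 : 0 ≤ ((l : ℝ) / 2) ^ (n + 3) := by positivity
      suffices hs : -((N - a) ^ n * ((3 * a - 2) * N - a ^ 3)) ≤ a ^ n * a ^ 3 by
        rw [← pow_add] at hs
        linarith
      rcases le_or_gt 2 a with h2a | h2a
      · have b1 : |N - a| ^ n ≤ a ^ n := by
          apply pow_le_pow_left₀ (abs_nonneg _)
          rw [abs_le]; constructor <;> linarith
        have b2 : |(3 * a - 2) * N - a ^ 3| ≤ a ^ 3 := by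
          rw [abs_le]
          constructor
          · have : 0 ≤ (3 * a - 2) * N := mul_nonneg (by linarith) (by linarith)
            linarith
          · have q1 : (3 * a - 2) * N ≤ (3 * a - 2) * (2 * a) :=
              mul_le_mul_of_nonneg_left hNa (by linarith)
            have q2 : 0 ≤ a * ((a - 1) * (a - 2)) :=
              mul_nonneg (by linarith) (mul_nonneg (by linarith) (by linarith))
            nlinarith
        have b3 : |N - a| ^ n * |(3 * a - 2) * N - a ^ 3| ≤ a ^ n * a ^ 3 :=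
          mul_le_mul b1 b2 (abs_nonneg _) (pow_nonneg (by linarith) _)
        rw [← abs_pow, ← abs_mul] at b3
        exact (neg_le_abs _).trans b3
      · have b1 : (N - a) ^ n ≤ a ^ n := pow_le_pow_left₀ (by linarith) (by linarith) _
        have b0 : 0 ≤ (N - a) ^ n := pow_nonneg (by linarith) _
        have b2 : -((3 * a - 2) * N - a ^ 3) ≤ a ^ 3 := by
          have : 0 ≤ (3 * a - 2) * N := mul_nonneg (by linarith) (by linarith)
          linarith
        have b3 : (N - a) ^ n * (-((3 * a - 2) * N - a ^ 3)) ≤ (N - a) ^ n * a ^ 3 :=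
          mul_le_mul_of_nonneg_left b2 b0
        have b5 : (N - a) ^ n * a ^ 3 ≤ a ^ n * a ^ 3 :=
          mul_le_mul_of_nonneg_right b1 (pow_nonneg (by linarith) _)
        linarith
    · -- large `N`
      have g1 := coeff_G1_pow_ge l (n + 2)
      rw [show n + 2 + 1 = (n + 1) + 2 by rfl, coeff_G1, show n + 1 + 2 = n + 3 by rfl] at g1
      have g2 : (l : ℝ) * (1 / 4 * (N - 1 / 2) ^ (n + 1)) ≤ coeff (n + 3) (G1 ^ l) * (n + 3).factorial := by
        have e : ((n + 1 : ℕ) : ℝ) + 3 / 2 = N - 1 / 2 := by rw [hN]; push_cast; ring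
        rw [e] at g1
        have := mul_le_mul_of_nonneg_right g1 hf.le
        refine le_trans (le_of_eq ?_) this
        field_simp
      have hd : 0 < N - a := by linarith
      have p1 := pow_bern a N (n + 1) (by linarith) (by linarith)
      have em : ((n + 1 : ℕ) : ℝ) = N - 2 := by rw [hN]; push_cast; ring
      rw [em] at p1
      have p2 : -((3 * a - 2) * N - a ^ 3) ≤ (a - 1 / 4) * (N - a + (N - 2) * (a - 1 / 2)) := by
        have q3 : 0 ≤ (N - 2 * a) * (a ^ 2 + 13 / 4 * a - 17 / 8) :=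
          mul_nonneg (by linarith) (by nlinarith)
        have q5 : 0 ≤ a ^ 2 * (a - 3 / 2) := mul_nonneg (sq_nonneg _) (by linarith)
        nlinarith
      have p3 : (N - a) ^ n * (-((3 * a - 2) * N - a ^ 3)) * (N - a)
          ≤ (a - 1 / 4) * ((N - a) ^ (n + 1) * (N - a + (N - 2) * (a - 1 / 2))) := by
        have := mul_le_mul_of_nonneg_left p2 (pow_nonneg hd.le (n + 1))
        calc (N - a) ^ n * (-((3 * a - 2) * N - a ^ 3)) * (N - a)
            = (N - a) ^ (n + 1) * (-((3 * a - 2) * N - a ^ 3)) := by rw [pow_succ]; ring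
          _ ≤ _ := this
          _ = _ := by ring
      have p4 := mul_le_mul_of_nonneg_left p1 (by linarith : 0 ≤ a - 1 / 4)
      have p5 : (a - 1 / 4) * ((N - a) * (N - 1 / 2) ^ (n + 1))
          ≤ l / 2 * ((N - 1 / 2) ^ (n + 1)) * (N - a) := by
        have : 0 ≤ (N - a) * (N - 1 / 2) ^ (n + 1) :=
          mul_nonneg hd.le (pow_nonneg (by linarith) _)
        nlinarith
      have p6 := (p3.trans p4).trans p5
      have p7 : (N - a) ^ n * (-((3 * a - 2) * N - a ^ 3)) ≤ l / 2 * ((N - 1 / 2) ^ (n + 1)) :=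
        le_of_mul_le_mul_right p6 hd
      linarith

/-- **The claim `(K7)`** -/
theorem inW_K7 {l : ℕ} (hl : 3 ≤ l) {p a c : ℝ} (hp : p = (1 / 2) ^ (l + 1)) (ha0 : 0 ≤ a)
    (ha : a ≤ 1 / 4) (hc0 : 0 ≤ c) (hc : c ≤ 5 / 8) :
    InW (l / 2 + a) ((1 + C (1 / 2) * (X - 1)) ^ l * (1 + C a * (X - 1))
      + C (c * p) * (X - 1) ^ 2) := by
  have hp0 : 0 < p := by rw [hp]; positivity
  have hl3 : (3 : ℝ) ≤ l := by exact_mod_cast hl
  obtain ⟨τ, hτ⟩ : ∃ τ : ℝ⟦X⟧, τ = C p * (C 2 * (G1 ^ l * kc a) + C c * YK (l / 2 + a)) := ⟨_, rfl⟩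
  apply InW.intro (τ := τ)
  · have hk := NN.kc (s := a) (by linarith)
    have hG := NN_G1_pow l
    intro n
    rw [hτ, coeff_C_mul, map_add, coeff_C_mul, coeff_C_mul]
    apply mul_nonneg hp0.le
    by_cases h1 : n = 1
    · subst h1
      have m1 : coeff 1 (G1 ^ l * kc a) = a ^ 2 + l / 2 * (1 - a) := by
        have c1 : coeff 1 (G1 ^ l * kc a) = coeff 0 (G1 ^ l) * coeff 1 (kc a)
            + coeff 1 (G1 ^ l) * coeff 0 (kc a) := by
          rw [coeff_mul]
          simp [Finset.Nat.antidiagonal_succ]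
        rw [c1, coeff_G1_pow_zero, coeff_G1_pow_one, coeff_kc_zero, coeff_kc_one]
        ring
      rw [m1, coeff_YK_one]
      have q1 : c * (2 + (l / 2 + a)) ≤ 5 / 8 * (2 + (l / 2 + a)) :=
        mul_le_mul_of_nonneg_right hc (by linarith)
      have q2 : 0 ≤ ((l : ℝ) - 3) * (1 / 4 - a) := mul_nonneg (by linarith) (by linarith)
      nlinarith [sq_nonneg (a - 1 / 4)]
    · have m1 : (1 - a) * coeff n (G1 ^ l) ≤ coeff n (G1 ^ l * kc a) := by
        rcases Nat.eq_zero_or_pos n with h | h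
        · subst h
          rw [coeff_mul]
          simp
          rw [← coeff_zero_eq_constantCoeff_apply, ← coeff_zero_eq_constantCoeff_apply,
            coeff_kc_zero]
          linarith
        · obtain ⟨m, rfl⟩ : ∃ m, n = m + 1 := ⟨n - 1, by omega⟩
          have := coeff_mul_ge hG hk m
          rw [coeff_G1_pow_zero, coeff_kc_zero] at this
          have h2 := hk (m + 1)
          linarith
      have m2 := neg_YK_le hl ha0 ha n h1
      have m3 := mul_le_mul_of_nonneg_left m2 hc0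
      have m4 : c * (2 * coeff n (G1 ^ l)) ≤ (1 - a) * (2 * coeff n (G1 ^ l)) :=
        mul_le_mul_of_nonneg_right (by linarith) (by have := hG n; linarith)
      linarith
  · have sτ : S τ = C p * (C 2 * ((1 + X) ^ l * Ex (-(l / 2)) * ((1 + C a * (X - 1)) * Ex (-a)))
        + C c * ((X - 1) ^ 2 * (Ex (-(l / 2)) * Ex (-a)))) := by
      have y1 : S (YK ((l : ℝ) / 2 + a)) = (X - 1) ^ 2 * (Ex (-(l / 2)) * Ex (-a)) := by
        rw [S_YK, neg_add, Ex_add]
      rw [hτ, map_mul, S_C, map_add, map_mul, S_C, map_mul S (G1 ^ l), S_G1_pow, S_kc, map_mul,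
        S_C, y1]
    rw [sτ]
    have x1 : Ex ((l : ℝ) / 2) * Ex (-((l : ℝ) / 2)) = 1 := Ex_mul_neg _
    have x2 : Ex a * Ex (-a) = 1 := Ex_mul_neg _
    have k1 : (1 + C (1 / 2) * (X - 1) : ℝ⟦X⟧) = C (1 / 2) * (1 + X) := by
      have e1 : (1 : ℝ⟦X⟧) = C (1 / 2) + C (1 / 2) := by rw [← map_add]; norm_num
      linear_combination e1
    have k2 : (1 + C (1 / 2) * (X - 1) : ℝ⟦X⟧) ^ l = C p * (C 2 * (1 + X) ^ l) := by
      rw [k1, mul_pow, ← map_pow, ← mul_assoc, ← map_mul]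
      congr 2
      rw [hp]; ring
    have k3 : C (c * p) = C c * (C p : ℝ⟦X⟧) := by rw [map_mul]
    rw [k2, k3, Ex_add]
    obtain ⟨u1, hu1⟩ : ∃ u, u = Ex ((l : ℝ) / 2) := ⟨_, rfl⟩
    obtain ⟨u2, hu2⟩ : ∃ u, u = Ex (-((l : ℝ) / 2)) := ⟨_, rfl⟩
    obtain ⟨u3, hu3⟩ : ∃ u, u = Ex a := ⟨_, rfl⟩
    obtain ⟨u4, hu4⟩ : ∃ u, u = Ex (-a) := ⟨_, rfl⟩
    rw [← hu1, ← hu2, ← hu3, ← hu4]
    rw [← hu1, ← hu2] at x1
    rw [← hu3, ← hu4] at x2
    linear_combination (-(C p * (C 2 * (1 + X) ^ l) * (1 + C a * (X - 1)))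
        - C c * C p * (X - 1) ^ 2) * (u3 * u4) * x1
      + (-(C p * (C 2 * (1 + X) ^ l) * (1 + C a * (X - 1)))
        - C c * C p * (X - 1) ^ 2) * x2

end Pool.Agent.Lib_helper6.SRC
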