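import Pool.Agent.Lib_helper6.SRC.K
import Pool.Agent.Lib_helper79.SRC.CaseIFinal

set_option autoImplicit false

/-! # Case II -/

namespace Pool.Agent.Lib_helper6.SRC

open PowerSeries Pool.Agent.Lib_helper36.SRC Pool.Agent.Lib_helper36.SRC.RT
open Pool.Agent.Lib_helper79.SRC (quad size_eq B_leaf β_leaf N_leaf H_leaf N_star B_star β_star
  two_t_le)

/-- the cubic inequality -/
lemma cubicII (s t δ : ℝ) (ht : 0 < t) (h1 : t ≤ δ) (h2 : 2 * (δ + t) ≤ s) :
    11 / 2 * (s * δ) * (2 * s - 2 * δ - 3 * t) ≤ (s + δ) ^ 2 * (2 * s - δ - 2 * t) := by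
  obtain ⟨w, hw⟩ : ∃ w, w = s - 2 * (δ + t) := ⟨_, rfl⟩
  obtain ⟨v, hv⟩ : ∃ v, v = δ - t := ⟨_, rfl⟩
  have hw0 : 0 ≤ w := by linarith
  have hv0 : 0 ≤ v := by linarith
  have e1 : δ = t + v := by linarith
  have e2 : s = w + 2 * (t + v + t) := by rw [← e1]; linarith
  rw [e2, e1]
  have : 0 ≤ (w + 2 * (t + v + t) + (t + v)) ^ 2 * (2 * (w + 2 * (t + v + t)) - (t + v) - 2 * t)
    - 11 / 2 * ((w + 2 * (t + v + t)) * (t + v)) * (2 * (w + 2 * (t + v + t)) - 2 * (t + v) - 3 * t) := by
    have q1 : 0 ≤ w * (w - v) ^ 2 := mul_nonneg hw0 (sq_nonneg _)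
    have q2 : 0 ≤ t * (w - v) ^ 2 := mul_nonneg ht.le (sq_nonneg _)
    have q3 : 0 ≤ t * v ^ 2 := by positivity
    have q4 : 0 ≤ t ^ 2 * v := by positivity
    have q5 : 0 ≤ t ^ 2 * w := by positivity
    have q6 : 0 ≤ w * v * t := by positivity
    have q7 : 0 ≤ v * (w - v) ^ 2 := mul_nonneg hv0 (sq_nonneg _)
    have q8 : 0 ≤ w ^ 3 := by positivity
    have q9 : 0 ≤ v ^ 3 := by positivity
    have q10 : 0 ≤ t ^ 3 := by positivity
    have q11 : 0 ≤ t * w ^ 2 := by positivity
    nlinarith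
  linarith

lemma LfMap (ds : List RT) : Lf (ds.map t) := by
  intro a ha
  obtain ⟨d, _, rfl⟩ := List.mem_map.1 ha
  exact ⟨(t_pos d).le, t_le_half d⟩

/-- the polynomial of case II -/
noncomputable def Z2 (t u s m : ℝ) (Xp : ℝ⟦X⟧) : ℝ⟦X⟧ :=
  Xp * (1 + C (s * (1 + 2 * m)) * (X - 1) + C (2 * m * s * (s - u)) * (X - 1) ^ 2)
    + (C (2 * t * (1 - m)) * (X - 1) + C (2 * t * (s - m * (s - u))) * (X - 1) ^ 2)

/-- the certificate -/
lemma Z2_eq (t u s m : ℝ) (hm : m * (2 * (s - t)) = u - t) (hm1 : 1 - m ≠ 0) (Xp : ℝ⟦X⟧) :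
    Z2 t u s m Xp = (Xp + C (2 * t) * (X - 1)) * (C (1 - m) * (1 + C (s + u - t) * (X - 1)
        + C (2 * s * m * (2 * (s - u) - t) / (1 - m)) * (X - 1) ^ 2))
      + C m * ((1 + C (2 * s) * (X - 1)) * (Xp * (1 + C (-(s - u - t)) * (X - 1))
        - C (2 * t * (2 * (s - u - t) + t)) * (X - 1) ^ 2)) := by
  have r : (1 - m) * (2 * s * m * (2 * (s - u) - t) / (1 - m)) = 2 * s * m * (2 * (s - u) - t) := by
    field_simp
  have r' := congrArg (C (R := ℝ)) r
  have hm' := congrArg (C (R := ℝ)) hm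
  unfold Z2
  set e := 2 * s * m * (2 * (s - u) - t) / (1 - m)
  simp only [map_mul, map_sub, map_add, map_one, map_ofNat, map_neg] at r' hm' ⊢
  linear_combination (-(X - 1) ^ 2 * (Xp + 2 * C t * (X - 1))) * r'
    + ((X - 1) * Xp + 2 * C t * (X - 1) ^ 2) * hm'

theorem inW_Z2 (as : List ℝ) (t u s m : ℝ) (has : Lf as)
    (hA : InW (as.sum + 2 * t) (prodE as + C (2 * t) * (X - 1)))
    (ht : 0 < t) (ht1 : 2 ^ as.length * (2 * t) ≤ 1) (h1 : 2 * t ≤ u) (h2 : 2 * u ≤ s)
    (h3 : s ≤ 1 / 2) (hm : m * (2 * (s - t)) = u - t) :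
    InW (as.sum + (s + u + t)) (Z2 t u s m (prodE as)) := by
  have hst : 0 < s - t := by linarith
  have hm0 : 0 ≤ m := by
    by_contra hneg
    push Not at hneg
    nlinarith
  have hm4 : m ≤ 1 / 4 := by
    by_contra hneg
    push Not at hneg
    nlinarith
  have h1m : 0 < 1 - m := by linarith
  rw [Z2_eq t u s m hm h1m.ne']
  have hσ : 0 < 2 * (s - u) - t := by linarith
  set e := 2 * s * m * (2 * (s - u) - t) / (1 - m) with he
  have he0 : 0 ≤ e := by
    rw [he]; apply div_nonneg _ h1m.le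
    exact mul_nonneg (mul_nonneg (by linarith) hm0) hσ.le
  obtain ⟨ν, hν⟩ : ∃ ν, ν = s + u - t := ⟨_, rfl⟩
  have hν0 : 0 < ν := by linarith
  have hν1 : ν ≤ 3 / 4 := by linarith
  -- `e (2 + ν) ≤ ν ^ 2`
  have hme : (1 - m) * e = 2 * s * m * (2 * (s - u) - t) := by rw [he]; field_simp
  have hk : (2 * s - u - t) * e = 2 * s * (u - t) * (2 * (s - u) - t) := by
    have a1 : (2 * (s - t)) * ((1 - m) * e) = 2 * s * (m * (2 * (s - t))) * (2 * (s - u) - t) := by
      rw [hme]; ring
    rw [hm] at a1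
    have a2 : 2 * (s - t) * (1 - m) = 2 * s - u - t := by linear_combination -hm
    rw [← a2]
    linarith
  have hq : e * (2 + ν) ≤ ν ^ 2 := by
    have a3 : 0 < 2 * s - u - t := by linarith
    apply le_of_mul_le_mul_left _ a3
    have a4 : (2 * s - u - t) * (e * (2 + ν)) = 2 * s * (u - t) * (2 * (s - u) - t) * (2 + ν) := by
      rw [← hk]; ring
    rw [a4]
    have a5 := cubicII s t (u - t) ht (by linarith) (by linarith)
    have a6 : 2 * s * (u - t) * (2 * (s - u) - t) * (2 + ν)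
        ≤ 2 * s * (u - t) * (2 * (s - u) - t) * (11 / 4) := by
      apply mul_le_mul_of_nonneg_left (by linarith)
      apply mul_nonneg (mul_nonneg (by linarith) (by linarith)) hσ.le
    have a7 : ν ^ 2 = (s + (u - t)) ^ 2 := by rw [hν]; ring
    rw [a7]
    nlinarith
  have hQ : InW ν (1 + C ν * (X - 1) + C e * (X - 1) ^ 2) := by
    apply quad ν e (by linarith)
    · have b1 : 0 ≤ e * ν := mul_nonneg he0 hν0.le
      rcases he0.eq_or_lt with h0 | h0
      · rw [← h0]; simp only [mul_zero, sub_zero]; positivity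
      · have : 0 < e * ν := mul_pos h0 hν0
        nlinarith
    · exact hq
    · rcases le_total (2 / 3) ν with h4 | h4
      · have b1 : 0 ≤ e * (3 * ν - 2) := mul_nonneg he0 (by linarith)
        have b2 : 0 ≤ ν ^ 2 * (1 - ν) := mul_nonneg (sq_nonneg _) (by linarith)
        linarith
      · have b1 : (2 + ν) * (e * (2 - 3 * ν)) ≤ (2 + ν) * (ν ^ 2 * (1 - ν)) := by
          have b2 : e * (2 + ν) * (2 - 3 * ν) ≤ ν ^ 2 * (2 - 3 * ν) :=
            mul_le_mul_of_nonneg_right hq (by linarith)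
          have b3 : ν ^ 2 * (2 - 3 * ν) ≤ ν ^ 2 * ((2 + ν) * (1 - ν)) :=
            mul_le_mul_of_nonneg_left (by nlinarith) (sq_nonneg _)
          linarith
        have b4 := le_of_mul_le_mul_left b1 (by linarith)
        linarith
  have hK := inW_K as has t (s - u - t) ht.le ht1 (by linarith) (by linarith)
  rw [← hν]
  apply InW.add
  · refine (hA.mul (hQ.smul h1m.le)).congr ?_ rfl
    rw [hν]; ring
  · apply InW.smul hm0
    refine ((InW.coin (s := 2 * s) (by linarith)).mul hK).congr ?_ rfl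
    ring

/-- the scalar identity behind the certificate for case II -/
lemma cert_identII (t u s m : ℝ) (Xp BV NV : ℝ⟦X⟧) :
    C (1 / 2) * ((Xp + C (2 * t) * ((X - 1) * 1)) * ((1 + C s * (X - 1)) * BV)
      + Xp * ((1 + C s * (X - 1)) * BV + C (2 * u) * ((X - 1) * NV)))
    = Xp * (C (1 / 2) - C m * (1 + C (s - u) * (X - 1))) *
        ((1 + C s * (X - 1)) * BV + C (2 * u) * ((X - 1) * NV))
      + C m * (1 + C (s - u) * (X - 1)) * (C (1 / 2) *
        ((Xp + C (2 * t) * ((X - 1) * 1)) * BV + Xp * (BV + C (2 * (2 * u)) * ((X - 1) * NV))))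
      + C (1 / 2) * (Z2 t u s m Xp * BV) := by
  unfold Z2
  have h2 : C (1 / 2 : ℝ) * 2 = (1 : ℝ⟦X⟧) := by
    have : (2 : ℝ⟦X⟧) = C 2 := (map_ofNat C 2).symm
    rw [this, ← map_mul]; norm_num
  simp only [map_sub, map_add, map_mul, map_one, map_ofNat]
  set c2 : ℝ⟦X⟧ := C (1 / 2)
  linear_combination (-(Xp * C m * (1 + (C s - C u) * (X - 1)) *
    ((1 + C s * (X - 1)) * BV + 2 * C u * ((X - 1) * NV)))) * h2

/-- **Case II.** -/
theorem caseII : CaseII := by
  intro n hn c l h cs hs hc hl hall hct hul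
  obtain ⟨g, ds, rfl⟩ := exists_node c
  rw [IsStar, kids_node] at hc
  simp only [kids_node] at hall
  set t0 := t (node g ds) with ht0
  set U := node h (l :: cs) with hU
  set V := node h cs with hV
  set u := t U with hu
  set s := t l with hs'
  have htV : t V = 2 * u := (t_cons h l cs).symm
  have ht0p : 0 < t0 := t_pos _
  have hup : 0 < u := t_pos _
  have hs1 : s ≤ 1 / 2 := t_le_half _
  have hst : 0 < s - t0 := by linarith
  set m := (u - t0) / (2 * (s - t0)) with hm
  have hmm : m * (2 * (s - t0)) = u - t0 := by rw [hm]; field_simp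
  have hm0 : 0 ≤ m := by rw [hm]; apply div_nonneg; linarith; linarith
  have hm4 : m ≤ 1 / 4 := by
    by_contra hneg
    push Not at hneg
    nlinarith
  have hNc : N (node g ds) = 1 := N_star g ds hc.2
  have hXp : B (node g ds) = prodE (ds.map t) := by
    rw [B_star g ds hc.2]; unfold prodE; rw [List.map_map]; rfl
  have hAc : A (node g ds) = B (node g ds) + C (2 * t0) * ((X - 1) * 1) := by
    unfold A; rw [hNc]
  have hBU : B U = (1 + C s * (X - 1)) * B V := by rw [hU, B_cons, H_leaf hl]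
  have hAU : A U = (1 + C s * (X - 1)) * B V + C (2 * u) * ((X - 1) * N V) := by
    unfold A; rw [hBU, ← hu, hU, N_cons, B_leaf hl, one_mul]
  have hAV : A V = B V + C (2 * (2 * u)) * ((X - 1) * N V) := by
    unfold A; rw [htV]
  have key : J (node g ds) U = B (node g ds) * (C (1 / 2) - C m * (1 + C (s - u) * (X - 1))) * A U
      + C m * (1 + C (s - u) * (X - 1)) * J (node g ds) V
      + C (1 / 2) * (Z2 t0 u s m (B (node g ds)) * B V) := by
    have := cert_identII t0 u s m (B (node g ds)) (B V) (N V)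
    unfold J
    rw [hAc, hBU, hAU, hAV]
    exact this
  have hsz : size U = size V + 1 := by
    rw [hU, hV, size_node, size_node, sizeL_cons]
    have : size l = 1 := by rw [size_eq, hl, sizeL_nil]
    omega
  have hszc : size (node g ds) = sizeL ds + 1 := size_node _ _
  have hds : 1 ≤ sizeL ds := by
    cases ds with
    | nil => exact absurd rfl hc.1
    | cons d ds => rw [sizeL_cons]; have := size_pos d; omega
  have hVp := size_pos V
  have hBc : InW (β (node g ds)) (B (node g ds)) := hn.BL g ds (by omega)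
  have hAUg : InW (α U) (A U) := hn.A U (by omega)
  have hBV : InW (β V) (B V) := hn.B V (by omega)
  have hJ : GoodJ (node g ds) V := by
    have h1 : Good (node V.hh (node g ds :: V.kids)) := by
      apply hn
      rw [size_node, sizeL_cons]
      have := size_eq V
      omega
    rw [good_cons, eta] at h1
    exact h1
  have hβ : (ds.map t).sum = β (node g ds) := (β_star g ds hc.2).symm
  have hle := two_t_le g ds
  have hAcg : InW ((ds.map t).sum + 2 * t0) (prodE (ds.map t) + C (2 * t0) * (X - 1)) := by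
    have h1 := hn.A (node g ds) (by omega)
    rw [hAc, hXp, mul_one] at h1
    refine h1.congr ?_ rfl
    unfold α
    rw [← ht0, hβ]
  have hZ := inW_Z2 (ds.map t) t0 u s m (LfMap ds) hAcg ht0p (by
      rw [List.length_map]
      have h2 : (2 : ℝ) ^ ds.length * (1 / 2) ^ ds.length = 1 := by
        rw [← mul_pow]; norm_num
      calc (2 : ℝ) ^ ds.length * (2 * t0) ≤ 2 ^ ds.length * (1 / 2) ^ ds.length :=
            mul_le_mul_of_nonneg_left hle (by positivity)
        _ = 1 := h2) hct hul hs1 hmm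
  rw [← hXp] at hZ
  rw [hβ] at hZ
  have hβU : β U = s + β V := by rw [hU, β_cons, β_leaf hl]; ring
  unfold GoodJ
  rw [key]
  apply InW.add
  · apply InW.add
    · -- `1/2 - C' = (1/2 - m) (1 - (u - t) y)`
      have e : (C (1 / 2) - C m * (1 + C (s - u) * (X - 1)) : ℝ⟦X⟧)
          = C (1 / 2 - m) * (1 + C (-(u - t0)) * (X - 1)) := by
        have r : m * (s - u) = (1 / 2 - m) * (u - t0) := by linear_combination (1 / 2 : ℝ) * hmm
        have r' := congrArg (C (R := ℝ)) r
        simp only [map_mul, map_sub] at r' ⊢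
        simp only [map_neg, map_sub]
        linear_combination (-(X - 1 : ℝ⟦X⟧)) * r'
      rw [e]
      refine ((hBc.mul ((InW.coin (s := -(u - t0)) (by linarith)).smul
        (c := 1 / 2 - m) (by linarith))).mul hAUg).congr ?_ rfl
      unfold mJ α
      rw [← ht0, ← hu]; ring
    · refine ((((InW.coin (s := s - u) (by linarith)).smul hm0)).mul hJ).congr ?_ rfl
      unfold mJ
      rw [← ht0, ← hu, htV, hβU]; ring
  · apply InW.smul (by norm_num)
    refine (hZ.mul hBV).congr ?_ rfl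
    unfold mJ
    rw [← ht0, ← hu, hβU]; ring


end Pool.Agent.Lib_helper6.SRC
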