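import Pool.Agent.Lib_helper6.SRC.Quad

set_option autoImplicit false

/-! # The claims `(K9)` -/

namespace Pool.Agent.Lib_helper6.SRC

open Finset PowerSeries Pool.Agent.Lib_helper36.SRC

/-- reduction of the quadratic condition -/
lemma quad_cond {a m0 m1 m2 : ℝ} (ha : a ≤ 1 / 4)
    (H2 : 0 ≤ m0 * (1 / 2 - a) + m1 * (3 / 2 - a) + m2 * (5 / 2 - a))
    (H1 : 0 ≤ 2 * m0 * (1 / 2 - a) * (5 / 2 - a) + m1 * (3 / 2 - a) * (9 / 2 - a)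
      + 3 * m2 * (5 / 2 - a))
    (H0 : 0 ≤ m0 * (1 / 2 - a) * (5 / 2 - a) + 2 * m1 * (3 / 2 - a) + 2 * m2) (m : ℝ)
    (hm : 0 ≤ m) : 0 ≤ m0 * (1 / 2 - a) * (m + 5 / 2 - a) ^ 2
        + m1 * (3 / 2 - a) * (m + 2) * (m + 5 / 2 - a)
        + m2 * (5 / 2 - a) * (m + 2) * (m + 1) := by
  have e : m0 * (1 / 2 - a) * (m + 5 / 2 - a) ^ 2
        + m1 * (3 / 2 - a) * (m + 2) * (m + 5 / 2 - a)
        + m2 * (5 / 2 - a) * (m + 2) * (m + 1)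
      = (m0 * (1 / 2 - a) + m1 * (3 / 2 - a) + m2 * (5 / 2 - a)) * m ^ 2
        + (2 * m0 * (1 / 2 - a) * (5 / 2 - a) + m1 * (3 / 2 - a) * (9 / 2 - a)
      + 3 * m2 * (5 / 2 - a)) * m
        + (m0 * (1 / 2 - a) * (5 / 2 - a) + 2 * m1 * (3 / 2 - a) + 2 * m2) * (5 / 2 - a) := by ring
  rw [e]
  have h1 := mul_nonneg H2 (sq_nonneg m)
  have h2 := mul_nonneg H1 hm
  have h3 := mul_nonneg H0 (by linarith : 0 ≤ 5 / 2 - a)
  linarith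

/-- **(K9a)** -/
theorem inW_K9a (a : ℝ) (h0 : 0 ≤ a) (h1 : a ≤ 1 / 4) :
    InW (3 / 2 + a) ((1 + C (1 / 2) * (X - 1)) ^ 3 *
      (C (3 / 4) * (1 + C a * (X - 1)) + C (a / 2) * (X - 1) ^ 2)) := by
  have ha2 : 0 ≤ a * (1 / 4 - a) := mul_nonneg h0 (by linarith)
  refine (inW_quad (k := 3) (q := 3 / 4) (e := a / 2) (μ := a) (m0 := 9 / 8 - 11 / 8 * a + a ^ 2 / 4)
    (m1 := -11 / 8 * a + 3 / 4 * a ^ 2) (m2 := 3 / 4 * a + a ^ 2 / 2) (by norm_num) (by linarith)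
    (by push_cast; ring) (by push_cast; ring) (by push_cast; ring) (by linarith) (by nlinarith)
    (by nlinarith [mul_nonneg h0 ha2]) ?_).congr (by norm_num) rfl
  apply quad_cond h1
  · nlinarith [mul_nonneg h0 ha2]
  · nlinarith [mul_nonneg h0 ha2, mul_nonneg h0 (mul_nonneg h0 ha2)]
  · nlinarith [mul_nonneg h0 ha2, mul_nonneg h0 (mul_nonneg h0 ha2)]

/-- **(K9b)** -/
theorem inW_K9b (a b : ℝ) (hb0 : 0 ≤ b) (hba : b ≤ a) (hb : b ≤ 5 / 32) (h1 : a ≤ 1 / 4) :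
    InW (2 + a) ((1 + C (1 / 2) * (X - 1)) ^ 4 *
      (C (7 / 8) * (1 + C a * (X - 1)) + C b * (X - 1) ^ 2)) := by
  have h0 : 0 ≤ a := hb0.trans hba
  have ha2 : 0 ≤ a * (1 / 4 - a) := mul_nonneg h0 (by linarith)
  have hab : 0 ≤ a * b := mul_nonneg h0 hb0
  have hg : 0 ≤ 14 - 51 / 4 * a - 3 * a ^ 2 + a ^ 3 := by
    nlinarith [mul_nonneg h0 (sq_nonneg a)]
  refine (inW_quad (k := 4) (q := 7 / 8) (e := b) (μ := a)
    (m0 := 7 / 4 - 7 / 4 * a + 7 / 8 * a ^ 2 - a * b)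
    (m1 := 7 / 4 * a - 6 * b + 7 / 8 * a ^ 2) (m2 := 2 * b + a * b) (by norm_num) (by linarith)
    (by push_cast; ring) (by push_cast; ring) (by push_cast; ring) (by linarith) (by nlinarith)
    (by nlinarith [mul_nonneg h0 ha2, mul_nonneg hab h0]) ?_).congr (by norm_num) rfl
  apply quad_cond h1
  · nlinarith [mul_nonneg h0 ha2, mul_nonneg h0 hb0]
  · have hg1 : 0 ≤ (5 / 32 - b) * a := mul_nonneg (by linarith) h0
    nlinarith [mul_nonneg h0 ha2, mul_nonneg h0 (mul_nonneg h0 ha2), mul_nonneg hg1 h0]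
  · have g1 := mul_nonneg (sub_nonneg.2 hba) hg
    have g2 := mul_nonneg (sub_nonneg.2 hb) hg
    nlinarith [mul_nonneg h0 ha2, mul_nonneg h0 (mul_nonneg h0 ha2)]

end Pool.Agent.Lib_helper6.SRC
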