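import Pool.Agent.Lib_helper6.SRC.K

set_option autoImplicit false

/-! # Powers of the honest coin: lower bounds and the block lemma -/

namespace Pool.Agent.Lib_helper6.SRC

open Finset PowerSeries Pool.Agent.Lib_helper36.SRC

/-- the honest coin, constant coefficient one -/
noncomputable def G1 : ℝ⟦X⟧ := C 2 * kc (1 / 2)

lemma coeff_G1_zero : coeff 0 G1 = 1 := by
  unfold G1; rw [coeff_C_mul, coeff_kc_zero]; norm_num

lemma coeff_G1_one : coeff 1 G1 = 1 / 2 := by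
  unfold G1; rw [coeff_C_mul, coeff_kc_one]; norm_num

lemma coeff_G1 (n : ℕ) : coeff (n + 2) G1 = 1 / 4 * ((n : ℝ) + 3 / 2) ^ n / (n + 2).factorial := by
  unfold G1
  rw [coeff_C_mul, coeff_kc]
  have : (n : ℝ) + 2 - 1 / 2 = n + 3 / 2 := by ring
  rw [this]
  ring

lemma NN_G1 : NN G1 := (NN.C (by norm_num)).mul (NN.kc (by norm_num))

lemma S_G1 : S G1 = (1 + X) * Ex (-(1 / 2)) := by
  unfold G1
  rw [map_mul, S_C, S_kc]
  have e : (C (2 : ℝ) : ℝ⟦X⟧) * C (1 / 2) = 1 := by rw [← map_mul]; norm_num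
  have e2 : (C (2 : ℝ) : ℝ⟦X⟧) = 2 := map_ofNat C 2
  calc C 2 * ((1 + C (1 / 2) * (X - 1)) * Ex (-(1 / 2)))
      = (C 2 + (C 2 * C (1 / 2)) * (X - 1)) * Ex (-(1 / 2)) := by ring
    _ = _ := by rw [e, e2]; ring

lemma S_G1_pow (l : ℕ) : S (G1 ^ l) = (1 + X) ^ l * Ex (-(l / 2)) := by
  rw [map_pow, S_G1, mul_pow, Ex_pow]
  congr 2
  ring

lemma NN_G1_pow (l : ℕ) : NN (G1 ^ l) := by
  induction l with
  | zero => rw [pow_zero]; exact NN.one
  | succ l ih => rw [pow_succ]; exact ih.mul NN_G1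

lemma LE_Ex_G1 : LE (Ex (1 / 2)) G1 := by
  intro n
  rw [coeff_Ex]
  match n with
  | 0 => rw [coeff_G1_zero]; simp
  | 1 => rw [coeff_G1_one]; simp
  | n + 2 =>
    rw [coeff_G1]
    apply div_le_div_of_nonneg_right _ (by positivity)
    rw [pow_add]
    have h : ((1 : ℝ) / 2) ^ n ≤ ((n : ℝ) + 3 / 2) ^ n := by
      apply pow_le_pow_left₀ (by norm_num)
      have : (0 : ℝ) ≤ n := Nat.cast_nonneg n
      linarith
    have h2 : (0 : ℝ) ≤ (1 / 2) ^ n := by positivity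
    nlinarith

lemma LE_Ex_G1_pow (l : ℕ) : LE (Ex (l / 2)) (G1 ^ l) := by
  induction l with
  | zero =>
    rw [pow_zero]
    have : ((0 : ℕ) : ℝ) / 2 = 0 := by simp
    rw [this, Ex_zero]
    exact LE.refl _
  | succ l ih =>
    have e : ((l + 1 : ℕ) : ℝ) / 2 = l / 2 + 1 / 2 := by push_cast; ring
    rw [e, Ex_add, pow_succ]
    exact LE.mul ih LE_Ex_G1 (NN_G1_pow l) (NN_Ex (by norm_num))

lemma coeff_G1_pow_zero (l : ℕ) : coeff 0 (G1 ^ l) = 1 := by
  induction l with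
  | zero => simp
  | succ l ih =>
    rw [pow_succ, coeff_mul]
    have : ∑ p ∈ antidiagonal 0, coeff p.1 (G1 ^ l) * coeff p.2 G1
        = coeff 0 (G1 ^ l) * coeff 0 G1 := by simp
    rw [this, ih, coeff_G1_zero, mul_one]

/-- one coin takes the whole level -/
lemma coeff_G1_pow_ge (l n : ℕ) : (l : ℝ) * coeff (n + 1) G1 ≤ coeff (n + 1) (G1 ^ l) := by
  induction l with
  | zero => simp [coeff_one]
  | succ l ih =>
    rw [pow_succ]
    refine le_trans ?_ (coeff_mul_ge (NN_G1_pow l) NN_G1 n)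
    rw [coeff_G1_pow_zero, coeff_G1_zero]
    push_cast
    linarith

lemma coeff_G1_pow_one (l : ℕ) : coeff 1 (G1 ^ l) = l / 2 := by
  induction l with
  | zero => simp [coeff_one]
  | succ l ih =>
    have c1 : coeff 1 (G1 ^ l * G1) = coeff 0 (G1 ^ l) * coeff 1 G1
        + coeff 1 (G1 ^ l) * coeff 0 G1 := by
      rw [coeff_mul]
      simp [Finset.Nat.antidiagonal_succ]
    rw [pow_succ, c1, coeff_G1_pow_zero, coeff_G1_zero, ih, coeff_G1_one]
    push_cast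
    ring

lemma coeff_G1_two : coeff 2 G1 = 1 / 8 := by
  have := coeff_G1 0
  simp only [Nat.factorial] at this
  norm_num at this
  exact this

lemma coeff_G1_pow_two (l : ℕ) : coeff 2 (G1 ^ l) = (l : ℝ) ^ 2 / 8 := by
  induction l with
  | zero => simp [coeff_one]
  | succ l ih =>
    have c2 : coeff 2 (G1 ^ l * G1) = coeff 0 (G1 ^ l) * coeff 2 G1 + coeff 1 (G1 ^ l) * coeff 1 G1
        + coeff 2 (G1 ^ l) * coeff 0 G1 := by
      rw [coeff_mul]
      simp [Finset.Nat.antidiagonal_succ]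
      ring
    rw [pow_succ, c2, coeff_G1_pow_zero, coeff_G1_zero, ih, coeff_G1_one, coeff_G1_two,
      coeff_G1_pow_one]
    push_cast
    ring

/-! ## the block lemma -/

/-- `(1 + x)^4 ((1 - x)^2 + 9/2)` in frame `2` -/
noncomputable def BL : ℝ⟦X⟧ := C (11 / 2) * ab (-2) + C 20 * (X * ab (-1)) + C 26 * (X ^ 2 * ab 0)
  + C 14 * (X ^ 3 * ab 1) + C (7 / 2) * (X ^ 4 * ab 2) + C 2 * (X ^ 5 * ab 3) + X ^ 6 * ab 4

lemma S_Xab (j : ℕ) (c : ℝ) : S (X ^ j * ab (c + j)) = X ^ j * Ex c := by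
  rw [map_mul, map_pow, S_X, S_ab, mul_pow, Ex_pow, mul_assoc, ← Ex_add]
  congr 2
  ring

lemma BL_eq : G1 ^ 4 * (YK 0 + C (9 / 2)) = BL := by
  apply S_injective
  rw [map_mul, map_add, S_G1_pow, S_YK, S_C]
  unfold BL
  simp only [map_add, map_mul S (C _), S_C]
  have e0 : S (ab (-2)) = Ex (-2) := S_ab _
  have e1 : S (X * ab (-1)) = X * Ex (-2) := by
    have := S_Xab 1 (-2)
    rw [pow_one] at this
    rw [← this]; norm_num
  have e2 : S (X ^ 2 * ab 0) = X ^ 2 * Ex (-2) := by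
    rw [← S_Xab 2 (-2)]; norm_num
  have e3 : S (X ^ 3 * ab 1) = X ^ 3 * Ex (-2) := by
    rw [← S_Xab 3 (-2)]; norm_num
  have e4 : S (X ^ 4 * ab 2) = X ^ 4 * Ex (-2) := by
    rw [← S_Xab 4 (-2)]; norm_num
  have e5 : S (X ^ 5 * ab 3) = X ^ 5 * Ex (-2) := by
    rw [← S_Xab 5 (-2)]; norm_num
  have e6 : S (X ^ 6 * ab 4) = X ^ 6 * Ex (-2) := by
    rw [← S_Xab 6 (-2)]; norm_num
  rw [e0, e1, e2, e3, e4, e5, e6]
  have f0 : Ex (-0) = 1 := by rw [neg_zero, Ex_zero]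
  have f1 : Ex (-(((4 : ℕ) : ℝ) / 2)) = Ex (-2) := by congr 1; norm_num
  rw [f0, f1, mul_one]
  have g1 : (C (9 / 2 : ℝ) : ℝ⟦X⟧) = 9 * C (1 / 2) := by
    have : (C (9 : ℝ) : ℝ⟦X⟧) = 9 := map_ofNat C 9
    rw [← this, ← map_mul]; norm_num
  have g2 : (C (11 / 2 : ℝ) : ℝ⟦X⟧) = 11 * C (1 / 2) := by
    have : (C (11 : ℝ) : ℝ⟦X⟧) = 11 := map_ofNat C 11
    rw [← this, ← map_mul]; norm_num
  have g3 : (C (7 / 2 : ℝ) : ℝ⟦X⟧) = 7 * C (1 / 2) := by
    have : (C (7 : ℝ) : ℝ⟦X⟧) = 7 := map_ofNat C 7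
    rw [← this, ← map_mul]; norm_num
  have g4 : (C (20 : ℝ) : ℝ⟦X⟧) = 20 := map_ofNat C 20
  have g5 : (C (26 : ℝ) : ℝ⟦X⟧) = 26 := map_ofNat C 26
  have g6 : (C (14 : ℝ) : ℝ⟦X⟧) = 14 := map_ofNat C 14
  have g7 : (C (2 : ℝ) : ℝ⟦X⟧) = 2 := map_ofNat C 2
  have g8 : (2 : ℝ⟦X⟧) * C (1 / 2) = 1 := by rw [← g7, ← map_mul]; norm_num
  rw [g1, g2, g3, g4, g5, g6, g7]
  linear_combination ((18 * X + 27 * X ^ 2 + 18 * X ^ 3 + X ^ 4 - 1) * Ex (-2)) * g8

lemma coeff_BL_big (k : ℕ) : coeff (k + 7) BL = ((k : ℝ) + 5) ^ k *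
    (4 * (k : ℝ) ^ 5 + 71 * k ^ 4 + 466 * k ^ 3 + 1380 * k ^ 2 + 1802 * k + 885)
      / (k + 7).factorial := by
  unfold BL
  simp only [map_add, coeff_C_mul]
  have a0 : coeff (k + 7) (ab (-2)) = -2 * ((k : ℝ) + 5) ^ (k + 6) / (k + 7).factorial := by
    rw [show k + 7 = (k + 6) + 1 by rfl, coeff_ab_succ]
    congr 3
    push_cast; ring
  have a1 : coeff (k + 7) (X * ab (-1)) = -1 * ((k : ℝ) + 5) ^ (k + 5) / (k + 6).factorial := by
    rw [show k + 7 = (k + 6) + 1 by rfl, coeff_succ_X_mul, show k + 6 = (k + 5) + 1 by rfl,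
      coeff_ab_succ]
    congr 3
    push_cast; ring
  have a2 : coeff (k + 7) (X ^ 2 * ab 0) = 0 := by
    rw [coeff_X_pow_mul', if_pos (by omega), show k + 7 - 2 = (k + 4) + 1 by omega, coeff_ab_succ]
    simp
  have a3 : coeff (k + 7) (X ^ 3 * ab 1) = 1 * ((k : ℝ) + 5) ^ (k + 3) / (k + 4).factorial := by
    rw [coeff_X_pow_mul', if_pos (by omega), show k + 7 - 3 = (k + 3) + 1 by omega, coeff_ab_succ]
    congr 3
    push_cast; ring
  have a4 : coeff (k + 7) (X ^ 4 * ab 2) = 2 * ((k : ℝ) + 5) ^ (k + 2) / (k + 3).factorial := by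
    rw [coeff_X_pow_mul', if_pos (by omega), show k + 7 - 4 = (k + 2) + 1 by omega, coeff_ab_succ]
    congr 3
    push_cast; ring
  have a5 : coeff (k + 7) (X ^ 5 * ab 3) = 3 * ((k : ℝ) + 5) ^ (k + 1) / (k + 2).factorial := by
    rw [coeff_X_pow_mul', if_pos (by omega), show k + 7 - 5 = (k + 1) + 1 by omega, coeff_ab_succ]
    congr 3
    push_cast; ring
  have a6 : coeff (k + 7) (X ^ 6 * ab 4) = 4 * ((k : ℝ) + 5) ^ k / (k + 1).factorial := by
    rw [coeff_X_pow_mul', if_pos (by omega), show k + 7 - 6 = k + 1 by omega, coeff_ab_succ]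
    congr 3
    ring
  rw [a0, a1, a2, a3, a4, a5, a6]
  have f7 : ((k + 7).factorial : ℝ) = (k + 7) * (k + 6) * (k + 5) * (k + 4) * (k + 3) * (k + 2)
      * (k + 1).factorial := by
    rw [Nat.factorial_succ (k + 6), Nat.factorial_succ (k + 5), Nat.factorial_succ (k + 4),
      Nat.factorial_succ (k + 3), Nat.factorial_succ (k + 2), Nat.factorial_succ (k + 1)]
    push_cast; ring
  have f6 : ((k + 6).factorial : ℝ) = (k + 6) * (k + 5) * (k + 4) * (k + 3) * (k + 2)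
      * (k + 1).factorial := by
    rw [Nat.factorial_succ (k + 5), Nat.factorial_succ (k + 4),
      Nat.factorial_succ (k + 3), Nat.factorial_succ (k + 2), Nat.factorial_succ (k + 1)]
    push_cast; ring
  have f4 : ((k + 4).factorial : ℝ) = (k + 4) * (k + 3) * (k + 2)
      * (k + 1).factorial := by
    rw [Nat.factorial_succ (k + 3), Nat.factorial_succ (k + 2), Nat.factorial_succ (k + 1)]
    push_cast; ring
  have f3 : ((k + 3).factorial : ℝ) = (k + 3) * (k + 2) * (k + 1).factorial := by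
    rw [Nat.factorial_succ (k + 2), Nat.factorial_succ (k + 1)]
    push_cast; ring
  have f2 : ((k + 2).factorial : ℝ) = (k + 2) * (k + 1).factorial := by
    rw [Nat.factorial_succ (k + 1)]
    push_cast; ring
  rw [f7, f6, f4, f3, f2]
  have hf : ((k + 1).factorial : ℝ) ≠ 0 := by exact_mod_cast (k + 1).factorial_ne_zero
  have h7 : (k : ℝ) + 7 ≠ 0 := by positivity
  have h6 : (k : ℝ) + 6 ≠ 0 := by positivity
  have h5 : (k : ℝ) + 5 ≠ 0 := by positivity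
  have h4 : (k : ℝ) + 4 ≠ 0 := by positivity
  have h3 : (k : ℝ) + 3 ≠ 0 := by positivity
  have h2 : (k : ℝ) + 2 ≠ 0 := by positivity
  rw [pow_add _ k 6, pow_add _ k 5, pow_add _ k 3, pow_add _ k 2, pow_add _ k 1]
  field_simp
  ring

lemma coeff_BL_small : 0 ≤ coeff 0 BL ∧ 0 ≤ coeff 1 BL ∧ 0 ≤ coeff 2 BL ∧ 0 ≤ coeff 3 BL ∧
    0 ≤ coeff 4 BL ∧ 0 ≤ coeff 5 BL ∧ 0 ≤ coeff 6 BL := by
  have X1 : ∀ f : ℝ⟦X⟧, X * f = X ^ 1 * f := fun f => by rw [pow_one]
  unfold BL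
  rw [X1 (ab (-1))]
  simp only [map_add, coeff_C_mul, coeff_X_pow_mul', coeff_ab_zero]
  have h (c : ℝ) : coeff 1 (ab c) = c := by
    have := coeff_ab_succ c 0
    simpa using this
  have h2 (c : ℝ) : coeff 2 (ab c) = c * (c + 2) / 2 := by
    have := coeff_ab_succ c 1
    simp only [Nat.factorial] at this
    norm_num at this
    exact this
  have h3 (c : ℝ) : coeff 3 (ab c) = c * (c + 3) ^ 2 / 6 := by
    have := coeff_ab_succ c 2
    simp only [Nat.factorial] at this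
    norm_num at this
    exact this
  have h4 (c : ℝ) : coeff 4 (ab c) = c * (c + 4) ^ 3 / 24 := by
    have := coeff_ab_succ c 3
    simp only [Nat.factorial] at this
    norm_num at this
    exact this
  have h5 (c : ℝ) : coeff 5 (ab c) = c * (c + 5) ^ 4 / 120 := by
    have := coeff_ab_succ c 4
    simp only [Nat.factorial] at this
    norm_num at this
    exact this
  have h6 (c : ℝ) : coeff 6 (ab c) = c * (c + 6) ^ 5 / 720 := by
    have := coeff_ab_succ c 5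
    simp only [Nat.factorial] at this
    norm_num at this
    exact this
  have h0 (c : ℝ) : coeff 0 (ab c) = 1 := coeff_ab_zero c
  refine ⟨?_, ?_, ?_, ?_, ?_, ?_, ?_⟩
  all_goals
    norm_num [h, h2, h3, h4, h5, h6, h0, coeff_ab_zero]

/-- **Block lemma** -/
theorem NN_block : NN (G1 ^ 4 * (YK 0 + C (9 / 2))) := by
  rw [BL_eq]
  obtain ⟨s0, s1, s2, s3, s4, s5, s6⟩ := coeff_BL_small
  intro n
  match n with
  | 0 => exact s0
  | 1 => exact s1
  | 2 => exact s2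
  | 3 => exact s3
  | 4 => exact s4
  | 5 => exact s5
  | 6 => exact s6
  | k + 7 => rw [coeff_BL_big]; positivity

end Pool.Agent.Lib_helper6.SRC
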