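import Pool.Agent.Lib_helper6.SRC.Low

set_option autoImplicit false

/-! # The lemma `(K)` -/

namespace Pool.Agent.Lib_helper6.SRC

open Finset PowerSeries Pool.Agent.Lib_helper36.SRC

/-- `∏ (1 + s y)` -/
noncomputable def prodE (as : List ℝ) : ℝ⟦X⟧ := (as.map (fun s => 1 + C s * (X - 1))).prod

lemma prodE_nil : prodE [] = 1 := by unfold prodE; simp
lemma prodE_cons (s : ℝ) (L : List ℝ) : prodE (s :: L) = (1 + C s * (X - 1)) * prodE L := by
  unfold prodE; simp

lemma S_PK (L : List ℝ) : S (PK L) = prodE L * Ex (-L.sum) := by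
  induction L with
  | nil => rw [PK_nil, prodE_nil, map_one, List.sum_nil, neg_zero, Ex_zero, mul_one]
  | cons s L ih =>
    rw [PK_cons, prodE_cons, map_mul, S_kc, ih, List.sum_cons, neg_add, Ex_add]
    ring

/-- `y^2 exp (-a x)` in `t` -/
noncomputable def YK (a : ℝ) : ℝ⟦X⟧ := (X * ab 1 - 1) ^ 2 * ab (-a)

lemma S_YK (a : ℝ) : S (YK a) = (X - 1) ^ 2 * Ex (-a) := by
  unfold YK
  rw [map_mul, map_pow, map_sub, S_X_ab, S_ab, map_one]

lemma YK_eq (a : ℝ) : YK a = X ^ 2 * ab (2 - a) - C 2 * (X * ab (1 - a)) + ab (-a) := by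
  unfold YK
  have e1 : ab (2 - a) = ab 1 * ab 1 * ab (-a) := by rw [← ab_add, ← ab_add]; congr 1; ring
  have e2 : ab (1 - a) = ab 1 * ab (-a) := by rw [← ab_add]; congr 1
  have e3 : (C (2 : ℝ) : ℝ⟦X⟧) = 2 := map_ofNat C 2
  rw [e1, e2, e3]
  ring

lemma coeff_YK_zero (a : ℝ) : coeff 0 (YK a) = 1 := by
  rw [YK_eq, map_add, map_sub, coeff_ab_zero, coeff_C_mul]
  simp

lemma coeff_YK_one (a : ℝ) : coeff 1 (YK a) = -2 - a := by
  have h1 : coeff 1 (X ^ 2 * ab (2 - a)) = 0 := by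
    rw [coeff_X_pow_mul', if_neg (by omega)]
  have h2 : coeff 1 (X * ab (1 - a)) = coeff 0 (ab (1 - a)) := coeff_succ_X_mul 0 _
  have h3 : coeff 1 (ab (-a)) = -a := by
    have := coeff_ab_succ (-a) 0
    simpa using this
  rw [YK_eq, map_add, map_sub, coeff_C_mul, h1, h2, h3, coeff_ab_zero]
  ring

lemma coeff_YK_two (a : ℝ) : coeff 2 (YK a) = (a ^ 2 + 2 * a - 2) / 2 := by
  have h1 : coeff 2 (X ^ 2 * ab (2 - a)) = 1 := by
    rw [coeff_X_pow_mul', if_pos (le_refl _), Nat.sub_self, coeff_ab_zero]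
  have h2 : coeff 2 (X * ab (1 - a)) = coeff 1 (ab (1 - a)) := coeff_succ_X_mul 1 _
  have h3 : coeff 2 (ab (-a)) = -a * (2 - a) / 2 := by
    have := coeff_ab_succ (-a) 1
    simp only [Nat.factorial] at this
    norm_num at this
    rw [this]; ring
  have h4 : coeff 1 (ab (1 - a)) = 1 - a := by
    have := coeff_ab_succ (1 - a) 0
    simpa using this
  rw [YK_eq, map_add, map_sub, coeff_C_mul, h1, h2, h3, h4]
  ring

lemma coeff_YK (a : ℝ) (n : ℕ) : coeff (n + 3) (YK a)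
    = ((n : ℝ) + 3 - a) ^ n * ((3 * a - 2) * ((n : ℝ) + 3) - a ^ 3) / (n + 3).factorial := by
  rw [YK_eq, map_add, map_sub, coeff_C_mul, show n + 3 = (n + 2) + 1 by rfl, coeff_ab_succ,
    coeff_succ_X_mul, coeff_X_pow_mul', if_pos (by omega), show n + 2 + 1 - 2 = n + 1 by omega,
    coeff_ab_succ, show n + 2 = (n + 1) + 1 by rfl, coeff_ab_succ]
  rw [Nat.factorial_succ (n + 1 + 1), Nat.factorial_succ (n + 1)]
  push_cast
  have f : (((n + 1).factorial : ℕ) : ℝ) ≠ 0 := by exact_mod_cast (n + 1).factorial_ne_zero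
  have g1 : (n : ℝ) + 1 + 1 ≠ 0 := by positivity
  have g2 : (n : ℝ) + 1 + 1 + 1 ≠ 0 := by positivity
  have e1 : (2 - a + ((n : ℝ) + 1)) = (n : ℝ) + 3 - a := by ring
  have e2 : (1 - a + ((n : ℝ) + 1 + 1)) = (n : ℝ) + 3 - a := by ring
  have e3 : (-a + ((n : ℝ) + 1 + 1 + 1)) = (n : ℝ) + 3 - a := by ring
  rw [e1, e2, e3, pow_succ, pow_succ]
  field_simp
  ring

lemma D4 (a : ℝ) (h1 : 2 / 3 ≤ a) (h2 : a ≤ 4) :
    0 ≤ -a ^ 4 + 4 * a ^ 3 + 12 * a ^ 2 - 46.8125 * a + 36.59375 := by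
  nlinarith [mul_nonneg (sub_nonneg.2 h1) (sub_nonneg.2 h2), sq_nonneg (a - 143/100), mul_nonneg (mul_nonneg (sub_nonneg.2 h1) (sub_nonneg.2 h2)) (sq_nonneg (a - 143/100)), mul_nonneg (sub_nonneg.2 h1) (sq_nonneg (a - 143/100)), mul_nonneg (sub_nonneg.2 h2) (sq_nonneg (a - 143/100))]

lemma D4' (a : ℝ) (h1 : 2 / 3 ≤ a) :
    0 ≤ a ^ 3 + 5.625 * a ^ 2 - 20.75 * a + 17.96875 := by
  nlinarith [mul_nonneg (sub_nonneg.2 h1) (sq_nonneg (a - 13/10)), sq_nonneg (a - 13/10)]

lemma Da' (a : ℝ) (h1 : 4 ≤ a) :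
    0 ≤ 2.5 * a ^ 3 - 4.875 * a ^ 2 + 1.625 * a + 0.46875 := by
  nlinarith [mul_nonneg (sub_nonneg.2 h1) (sq_nonneg a), sq_nonneg (a - 4)]

lemma n3a (a : ℝ) (h1 : 2 / 3 ≤ a) : 9 * a - 6 - a ^ 3 ≤ 3 / 2 * (7 / 8 + 3 / 4 * a) * (a + 1 / 2) := by
  nlinarith [mul_nonneg (sub_nonneg.2 h1) (sq_nonneg (a - 12/10)), sq_nonneg (a - 12/10)]

lemma n3b (a : ℝ) (h1 : 2 / 3 ≤ a) (h2 : a ≤ 7 / 8) : 9 * a - 6 - a ^ 3 ≤ 15 / 8 * (a + 1 / 2) := by
  nlinarith [mul_nonneg (sub_nonneg.2 h1) (sub_nonneg.2 h2), pow_nonneg (by linarith : (0:ℝ) ≤ a) 3]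

/-- the polynomial inequality -/
lemma polyK (a N : ℝ) (h1 : 2 / 3 ≤ a) (h4 : 4 ≤ N) (haN : a ≤ N) :
    ((3 * a - 2) * N - a ^ 3) * (N - a)
      ≤ 3 / 4 * (a + 1 / 2) * (N - 1 / 2) * (N - a + (N - 3) * (a - 1 / 2)) := by
  rcases le_total a 4 with h | h
  · have e : 3 / 4 * (a + 1 / 2) * (N - 1 / 2) * (N - a + (N - 3) * (a - 1 / 2))
        - ((3 * a - 2) * N - a ^ 3) * (N - a)
        = (-a ^ 4 + 4 * a ^ 3 + 12 * a ^ 2 - 46.8125 * a + 36.59375)
          + (N - 4) * (a ^ 3 + 5.625 * a ^ 2 - 20.75 * a + 17.96875)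
          + (N - 4) ^ 2 * (3 / 4 * (a - 3 / 2) ^ 2 + 1 / 2) := by ring
    have := D4 a h1 h
    have := mul_nonneg (sub_nonneg.2 h4) (D4' a h1)
    have : 0 ≤ (N - 4) ^ 2 * (3 / 4 * (a - 3 / 2) ^ 2 + 1 / 2) := by positivity
    linarith
  · have e : 3 / 4 * (a + 1 / 2) * (N - 1 / 2) * (N - a + (N - 3) * (a - 1 / 2))
        - ((3 * a - 2) * N - a ^ 3) * (N - a)
        = 3 / 4 * (a + 1 / 2) * (a - 1 / 2) * (a ^ 2 - 3.5 * a + 1.5)
          + (N - a) * (2.5 * a ^ 3 - 4.875 * a ^ 2 + 1.625 * a + 0.46875)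
          + (N - a) ^ 2 * (3 / 4 * (a - 3 / 2) ^ 2 + 1 / 2) := by ring
    have := mul_nonneg (sub_nonneg.2 haN) (Da' a h)
    have : 0 ≤ (N - a) ^ 2 * (3 / 4 * (a - 3 / 2) ^ 2 + 1 / 2) := by positivity
    have : 0 ≤ 3 / 4 * (a + 1 / 2) * (a - 1 / 2) * (a ^ 2 - 3.5 * a + 1.5) := by
      apply mul_nonneg (mul_nonneg (by linarith) (by linarith))
      nlinarith
    linarith

/-- Bernoulli for the powers -/
lemma pow_bern (a N : ℝ) (m : ℕ) (h1 : 1 / 2 ≤ a) (haN : a ≤ N) :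
    (N - a) ^ m * (N - a + m * (a - 1 / 2)) ≤ (N - a) * (N - 1 / 2) ^ m := by
  rcases haN.eq_or_lt with h | h
  · rw [← h, sub_self, zero_mul, zero_add]
    rcases Nat.eq_zero_or_pos m with hm | hm
    · subst hm; simp
    · rw [zero_pow (by omega)]; simp
  · have hd : 0 < N - a := by linarith
    have h2 := one_add_mul_le_pow (a := (a - 1 / 2) / (N - a))
      (by have : 0 ≤ (a - 1 / 2) / (N - a) := div_nonneg (by linarith) hd.le
          linarith) m
    have e : N - 1 / 2 = (N - a) * (1 + (a - 1 / 2) / (N - a)) := by field_simp; ring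
    rw [e, mul_pow]
    have e2 : N - a + m * (a - 1 / 2) = (N - a) * (1 + m * ((a - 1 / 2) / (N - a))) := by
      field_simp
    rw [e2]
    calc (N - a) ^ m * ((N - a) * (1 + m * ((a - 1 / 2) / (N - a))))
        ≤ (N - a) ^ m * ((N - a) * (1 + (a - 1 / 2) / (N - a)) ^ m) := by
          apply mul_le_mul_of_nonneg_left _ (by positivity)
          exact mul_le_mul_of_nonneg_left h2 hd.le
      _ = _ := by ring

/-- the levels `n ≥ 2`, after normalization -/
lemma levelK {L : List ℝ} (h : Lf L) (t η : ℝ) (ht : 0 ≤ t) (hη : 0 ≤ η) (hη2 : η + 3 * t ≤ 1 / 2)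
    (n : ℕ) (hY : 0 < coeff (n + 2) (YK (L.sum - η))) :
    (2 * η + t) * coeff (n + 2) (YK (L.sum - η))
      ≤ (1 + η) * (2 ^ L.length * coeff (n + 2) (PK L)) := by
  have hS0 := sum_nonneg_of h
  obtain ⟨a, ha⟩ : ∃ a, a = L.sum - η := ⟨_, rfl⟩
  rw [← ha] at hY ⊢
  have hSa : L.sum = a + η := by linarith
  have ha2 : -(1 / 2) ≤ a := by linarith
  -- the region `a > 2/3`
  have ha3 : 2 / 3 < a := by
    by_contra hneg
    push Not at hneg
    match n with
    | 0 =>
      rw [coeff_YK_two] at hY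
      nlinarith
    | n + 1 =>
      rw [show n + 1 + 2 = n + 3 by rfl, coeff_YK] at hY
      have hn : (0 : ℝ) ≤ n := Nat.cast_nonneg n
      have h3 : 0 ≤ ((n : ℝ) + 3 - a) ^ n := pow_nonneg (by linarith) n
      have h4 : (3 * a - 2) * ((n : ℝ) + 3) - a ^ 3 ≤ 0 := by
        have h5 : (3 * a - 2) * ((n : ℝ) + 3) ≤ (3 * a - 2) * 3 := by nlinarith
        have h6 : (3 * a - 2) * 3 - a ^ 3 ≤ 0 := by
          nlinarith [mul_nonneg (sub_nonneg.2 hneg) (sq_nonneg (a + 1)),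
            mul_nonneg (sub_nonneg.2 hneg) (by linarith : 0 ≤ a + 1 / 2)]
        linarith
      have h7 : ((n : ℝ) + 3 - a) ^ n * ((3 * a - 2) * ((n : ℝ) + 3) - a ^ 3) / (n + 3).factorial ≤ 0 :=
        div_nonpos_of_nonpos_of_nonneg (mul_nonpos_of_nonneg_of_nonpos h3 h4) (by positivity)
      linarith
  -- the factor
  have hρ : (2 * η + t) * (a + 1 / 2) ≤ 2 / 3 * (1 + η) * L.sum := by
    rw [hSa]
    have e1 : 6 * (2 * η + t) ≤ 10 * η + 1 := by linarith
    have e2 : 6 * (2 * η + t) * (a + 1 / 2) ≤ (10 * η + 1) * (a + 1 / 2) :=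
      mul_le_mul_of_nonneg_right e1 (by linarith)
    have e3 : 0 ≤ (1 - 2 * η) * (3 * a - 1 / 2 - 2 * η) :=
      mul_nonneg (by linarith) (by linarith)
    nlinarith
  have hρ2 : 2 * η + t ≤ 2 / 3 * (1 + η) := by linarith
  have hρ0 : 0 ≤ 2 * η + t := by linarith
  have hc5 := c5 h (by linarith)
  have hl0 : (0 : ℝ) < 2 ^ L.length := by positivity
  match n with
  | 0 =>
    have h1 := coeff_PK_even h 2 (by decide)
    rw [coeff_YK_two] at hY ⊢
    simp only [Nat.factorial] at h1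
    norm_num at h1
    have h2 : (2 * η + t) * ((a ^ 2 + 2 * a - 2) / 2) ≤ 2 / 3 * (1 + η) * ((a ^ 2 + 2 * a - 2) / 2) :=
      mul_le_mul_of_nonneg_right hρ2 hY.le
    have h3 : 2 / 3 * (1 + η) * ((a ^ 2 + 2 * a - 2) / 2) ≤ (1 + η) * (L.sum ^ 2 / 2) := by
      rw [hSa]
      have : 0 ≤ (1 + η) * ((a + η) ^ 2 / 2 - 2 / 3 * ((a ^ 2 + 2 * a - 2) / 2)) := by
        apply mul_nonneg (by linarith)
        nlinarith [sq_nonneg (a - 2), mul_nonneg (by linarith : 0 ≤ a) hη, sq_nonneg η]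
      linarith
    have h4 : (1 + η) * (L.sum ^ 2 / 2) ≤ (1 + η) * (2 ^ L.length * coeff 2 (PK L)) :=
      mul_le_mul_of_nonneg_left h1 (by linarith)
    linarith
  | 1 =>
    have h1 := coeff_YK a 0
    simp only [Nat.factorial, Nat.cast_zero, zero_add, pow_zero, one_mul] at h1
    norm_num at h1
    rw [show 1 + 2 = 3 by rfl, h1] at hY ⊢
    have key : (2 * η + t) * (9 * a - 6 - a ^ 3) ≤ (1 + η) * (2 ^ L.length * (6 * coeff 3 (PK L))) := by
      rcases le_total (7 / 8) L.sum with h7 | h7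
      · have h2 := (coeff_PK_small h).2.2
        have h3 := c3 h h7
        have h4 : 7 / 8 * L.sum + 3 / 4 * L.sum ^ 2 ≤ 2 ^ L.length * (6 * coeff 3 (PK L)) := by
          refine h3.trans ?_
          rw [mul_assoc]
          exact mul_le_mul_of_nonneg_left h2 hl0.le
        have h5 := mul_le_mul_of_nonneg_left h4 (by linarith : 0 ≤ 1 + η)
        refine le_trans ?_ h5
        have h6 := mul_le_mul_of_nonneg_left (n3a a ha3.le) hρ0
        refine h6.trans ?_
        have h8 : 0 ≤ 3 / 2 * (7 / 8 + 3 / 4 * a) := by linarith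
        have h9 := mul_le_mul_of_nonneg_left hρ h8
        have h10 : (2 * η + t) * (3 / 2 * (7 / 8 + 3 / 4 * a) * (a + 1 / 2))
            = 3 / 2 * (7 / 8 + 3 / 4 * a) * ((2 * η + t) * (a + 1 / 2)) := by ring
        rw [h10]
        refine h9.trans ?_
        rw [hSa]
        have : 0 ≤ (1 + η) * ((a + η) * η) := by
          apply mul_nonneg (by linarith) (mul_nonneg (by linarith) hη)
        nlinarith
      · have h2 := coeff_PK_ge h 1
        simp only [Nat.factorial, Nat.cast_one, pow_one] at h2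
        norm_num at h2
        have h3 : 5 / 4 * L.sum ≤ 2 ^ L.length * (6 * coeff 3 (PK L)) := by
          have h4 : 2 ^ L.length * (6 * (P0 L * QQ L * (5 / 2) / 6)) ≤ 2 ^ L.length * (6 * coeff 3 (PK L)) := by
            apply mul_le_mul_of_nonneg_left _ hl0.le
            linarith
          refine le_trans ?_ h4
          nlinarith
        have h5 := mul_le_mul_of_nonneg_left h3 (by linarith : 0 ≤ 1 + η)
        refine le_trans ?_ h5
        have h6 := mul_le_mul_of_nonneg_left (n3b a ha3.le (by linarith)) hρ0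
        refine h6.trans ?_
        have h9 := mul_le_mul_of_nonneg_left hρ (by norm_num : (0:ℝ) ≤ 15 / 8)
        linarith
    have e3 : (3 * a - 2) * 3 - a ^ 3 = 9 * a - 6 - a ^ 3 := by ring
    rw [e3]
    linarith
  | n + 2 =>
    obtain ⟨m, rfl⟩ : ∃ m, m = n + 1 := ⟨_, rfl⟩
    rw [show n + 2 + 2 = (n + 1) + 3 by rfl, coeff_YK] at hY ⊢
    obtain ⟨N, hN⟩ : ∃ N : ℝ, N = ((n + 1 : ℕ) : ℝ) + 3 := ⟨_, rfl⟩
    rw [← hN] at hY ⊢
    have hn : (0 : ℝ) ≤ n := Nat.cast_nonneg n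
    have hN4 : 4 ≤ N := by rw [hN]; push_cast; linarith
    have hf : (0 : ℝ) < (n + 1 + 3).factorial := by positivity
    have hYp : 0 < (N - a) ^ (n + 1) * ((3 * a - 2) * N - a ^ 3) := by
      by_contra hneg
      push Not at hneg
      have := div_nonpos_of_nonpos_of_nonneg hneg hf.le
      linarith
    suffices hs : (2 * η + t) * ((N - a) ^ (n + 1) * ((3 * a - 2) * N - a ^ 3))
        ≤ (1 + η) * (2 ^ L.length * (coeff (n + 1 + 3) (PK L) * (n + 1 + 3).factorial)) by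
      rw [← mul_div_assoc, div_le_iff₀ hf]
      linarith
    rcases le_total a N with haN | haN
    · -- `n ≥ a`
      have h1 := coeff_PK_ge h (n + 2)
      rw [div_le_iff₀ (by positivity)] at h1
      have h2 : L.sum / 2 * (N - 1 / 2) ^ (n + 2)
          ≤ 2 ^ L.length * (coeff (n + 1 + 3) (PK L) * (n + 1 + 3).factorial) := by
        have h3 := mul_le_mul_of_nonneg_left h1 hl0.le
        refine le_trans ?_ h3
        have e : ((n + 2 : ℕ) : ℝ) + 3 / 2 = N - 1 / 2 := by rw [hN]; push_cast; ring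
        rw [e]
        have h4 : L.sum / 2 * (N - 1 / 2) ^ (n + 2) ≤ 2 ^ L.length * P0 L * QQ L * (N - 1 / 2) ^ (n + 2) :=
          mul_le_mul_of_nonneg_right hc5 (pow_nonneg (by linarith) _)
        linarith
      have h5 := mul_le_mul_of_nonneg_left h2 (by linarith : 0 ≤ 1 + η)
      refine le_trans ?_ h5
      rcases haN.eq_or_lt with h0 | h0
      · exfalso
        rw [← h0, sub_self, pow_succ] at hYp
        simp at hYp
      have hd : 0 < N - a := by linarith
      have p1 := pow_bern a N (n + 1) (by linarith) haN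
      have p2 := polyK a N ha3.le hN4 haN
      have em : ((n + 1 : ℕ) : ℝ) = N - 3 := by rw [hN]; ring
      rw [em] at p1
      have hpow : 0 ≤ (N - a) ^ (n + 1) := pow_nonneg hd.le _
      have q1 : (2 * η + t) * (N - a) ^ (n + 1) * (((3 * a - 2) * N - a ^ 3) * (N - a))
          ≤ (2 * η + t) * (N - a) ^ (n + 1) *
            (3 / 4 * (a + 1 / 2) * (N - 1 / 2) * (N - a + (N - 3) * (a - 1 / 2))) :=
        mul_le_mul_of_nonneg_left p2 (mul_nonneg hρ0 hpow)
      have q2 : (2 * η + t) * (3 / 4 * (a + 1 / 2) * (N - 1 / 2)) *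
            ((N - a) ^ (n + 1) * (N - a + (N - 3) * (a - 1 / 2)))
          ≤ (2 * η + t) * (3 / 4 * (a + 1 / 2) * (N - 1 / 2)) * ((N - a) * (N - 1 / 2) ^ (n + 1)) :=
        mul_le_mul_of_nonneg_left p1 (mul_nonneg hρ0 (mul_nonneg (by linarith) (by linarith)))
      have q3 : 3 / 4 * (N - 1 / 2) * ((N - a) * (N - 1 / 2) ^ (n + 1)) * ((2 * η + t) * (a + 1 / 2))
          ≤ 3 / 4 * (N - 1 / 2) * ((N - a) * (N - 1 / 2) ^ (n + 1)) * (2 / 3 * (1 + η) * L.sum) := by
        apply mul_le_mul_of_nonneg_left hρ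
        have : 0 ≤ (N - 1 / 2) ^ (n + 1) := pow_nonneg (by linarith) _
        have : 0 ≤ N - 1 / 2 := by linarith
        positivity
      apply le_of_mul_le_mul_right _ hd
      have r1 : (2 * η + t) * ((N - a) ^ (n + 1) * ((3 * a - 2) * N - a ^ 3)) * (N - a)
          = (2 * η + t) * (N - a) ^ (n + 1) * (((3 * a - 2) * N - a ^ 3) * (N - a)) := by ring
      have r2 : (2 * η + t) * (N - a) ^ (n + 1) *
            (3 / 4 * (a + 1 / 2) * (N - 1 / 2) * (N - a + (N - 3) * (a - 1 / 2)))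
          = (2 * η + t) * (3 / 4 * (a + 1 / 2) * (N - 1 / 2)) *
            ((N - a) ^ (n + 1) * (N - a + (N - 3) * (a - 1 / 2))) := by ring
      have r3 : (2 * η + t) * (3 / 4 * (a + 1 / 2) * (N - 1 / 2)) * ((N - a) * (N - 1 / 2) ^ (n + 1))
          = 3 / 4 * (N - 1 / 2) * ((N - a) * (N - 1 / 2) ^ (n + 1)) * ((2 * η + t) * (a + 1 / 2)) := by
        ring
      have r4 : 3 / 4 * (N - 1 / 2) * ((N - a) * (N - 1 / 2) ^ (n + 1)) * (2 / 3 * (1 + η) * L.sum)
          = (1 + η) * (L.sum / 2 * (N - 1 / 2) ^ (n + 2)) * (N - a) := by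
        rw [pow_succ (N - 1 / 2) (n + 1)]; ring
      rw [r1]
      refine q1.trans ?_
      rw [r2]
      refine q2.trans ?_
      rw [r3]
      refine q3.trans ?_
      rw [r4]
    · -- `n ≤ a`
      have ha4 : 4 ≤ a := hN4.trans haN
      rcases Nat.even_or_odd (n + 1) with he | ho
      · -- odd levels: nothing to show
        exfalso
        have h1 : 0 ≤ (N - a) ^ (n + 1) := he.pow_nonneg _
        have h2 : (3 * a - 2) * N - a ^ 3 ≤ 0 := by
          have h3 : (3 * a - 2) * N ≤ (3 * a - 2) * a := mul_le_mul_of_nonneg_left haN (by linarith)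
          have h4 : 0 ≤ a * ((a - 1) * (a - 2)) :=
            mul_nonneg (by linarith) (mul_nonneg (by linarith) (by linarith))
          nlinarith
        have := mul_nonpos_of_nonneg_of_nonpos h1 h2
        linarith
      · have he : Even (n + 1 + 3) := by
          rcases ho with ⟨k, hk⟩
          exact ⟨k + 2, by omega⟩
        have h1 := coeff_PK_even h (n + 1 + 3) he
        rw [div_le_iff₀ (by positivity)] at h1
        have h2 : L.sum ^ (n + 1 + 3)
            ≤ 2 ^ L.length * (coeff (n + 1 + 3) (PK L) * (n + 1 + 3).factorial) := by linarith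
        have h5 := mul_le_mul_of_nonneg_left h2 (by linarith : 0 ≤ 1 + η)
        refine le_trans ?_ h5
        have h6 : (N - a) ^ (n + 1) * ((3 * a - 2) * N - a ^ 3)
            = (a - N) ^ (n + 1) * (a ^ 3 - (3 * a - 2) * N) := by
          have : N - a = -(a - N) := by ring
          rw [this, ho.neg_pow]; ring
        have h7 : (a - N) ^ (n + 1) * (a ^ 3 - (3 * a - 2) * N) ≤ a ^ (n + 1) * a ^ 3 := by
          have h8 : (a - N) ^ (n + 1) ≤ a ^ (n + 1) :=
            pow_le_pow_left₀ (by linarith) (by linarith) _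
          have h9 : a ^ 3 - (3 * a - 2) * N ≤ a ^ 3 := by nlinarith
          have h10 : 0 ≤ (a - N) ^ (n + 1) := pow_nonneg (by linarith) _
          calc (a - N) ^ (n + 1) * (a ^ 3 - (3 * a - 2) * N) ≤ (a - N) ^ (n + 1) * a ^ 3 :=
                mul_le_mul_of_nonneg_left h9 h10
            _ ≤ a ^ (n + 1) * a ^ 3 := mul_le_mul_of_nonneg_right h8 (by positivity)
        have h11 : a ^ (n + 1) * a ^ 3 ≤ L.sum ^ (n + 1 + 3) := by
          rw [← pow_add, hSa]
          exact pow_le_pow_left₀ (by linarith) (by linarith) _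
        rw [h6] at hYp ⊢
        calc (2 * η + t) * ((a - N) ^ (n + 1) * (a ^ 3 - (3 * a - 2) * N))
            ≤ (1 + η) * ((a - N) ^ (n + 1) * (a ^ 3 - (3 * a - 2) * N)) :=
              mul_le_mul_of_nonneg_right (by linarith) hYp.le
          _ ≤ (1 + η) * L.sum ^ (n + 1 + 3) :=
              mul_le_mul_of_nonneg_left (h7.trans h11) (by linarith)

/-- **Lemma (K).** -/
theorem inW_K (L : List ℝ) (h : Lf L) (t η : ℝ) (ht : 0 ≤ t) (htl : 2 ^ L.length * (2 * t) ≤ 1)
    (hη : 0 ≤ η) (hη2 : η + 3 * t ≤ 1 / 2) :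
    InW (L.sum - η) (prodE L * (1 + C (-η) * (X - 1)) - C (2 * t * (2 * η + t)) * (X - 1) ^ 2) := by
  set a := L.sum - η with ha
  apply InW.intro (τ := PK L * kc (-η) - C (2 * t * (2 * η + t)) * YK a)
  · intro n
    rw [map_sub, coeff_C_mul, sub_nonneg]
    have hS0 := sum_nonneg_of h
    have hP := NN_PK h
    have hkc : NN (kc (-η)) := NN.kc (by linarith)
    have hρ0 : 0 ≤ 2 * η + t := by linarith
    have hl0 : (0 : ℝ) < 2 ^ L.length := by positivity
    have hge : (1 + η) * coeff n (PK L) ≤ coeff n (PK L * kc (-η)) := by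
      match n with
      | 0 =>
        rw [coeff_mul]
        simp only [Finset.Nat.antidiagonal_zero, sum_singleton]
        rw [coeff_kc_zero]
        linarith
      | n + 1 =>
        have h1 := coeff_mul_ge hP hkc n
        rw [coeff_kc_zero] at h1
        have h2 : 0 ≤ coeff 0 (PK L) * coeff (n + 1) (kc (-η)) := mul_nonneg (hP _) (hkc _)
        linarith
    refine le_trans ?_ hge
    rcases le_or_gt (coeff n (YK a)) 0 with hY | hY
    · have h1 : 2 * t * (2 * η + t) * coeff n (YK a) ≤ 0 :=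
        mul_nonpos_of_nonneg_of_nonpos (by positivity) hY
      have h2 : 0 ≤ (1 + η) * coeff n (PK L) := mul_nonneg (by linarith) (hP n)
      linarith
    · -- normalize
      apply le_of_mul_le_mul_left _ hl0
      have h1 : 2 ^ L.length * (2 * t * (2 * η + t) * coeff n (YK a))
          ≤ (2 * η + t) * coeff n (YK a) := by
        have h2 : 0 ≤ (2 * η + t) * coeff n (YK a) := mul_nonneg hρ0 hY.le
        have h3 := mul_le_mul_of_nonneg_right htl h2
        linarith
      refine h1.trans ?_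
      match n with
      | 0 =>
        rw [coeff_YK_zero, coeff_zero_PK]
        have h2 := bern h
        have h3 := sum_le_len h
        have h4 : (1 + η) * 1 ≤ (1 + η) * (2 ^ L.length * P0 L) :=
          mul_le_mul_of_nonneg_left (by linarith) (by linarith)
        linarith
      | 1 =>
        rw [coeff_YK_one] at hY
        exfalso
        linarith
      | n + 2 =>
        have h2 := levelK h t η ht hη hη2 n (by rw [← ha]; exact hY)
        rw [← ha] at h2
        linarith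
  · have e0 : S (PK L * kc (-η) - C (2 * t * (2 * η + t)) * YK a)
        = prodE L * Ex (-L.sum) * ((1 + C (-η) * (X - 1)) * Ex η)
          - C (2 * t * (2 * η + t)) * ((X - 1) ^ 2 * Ex (-a)) := by
      rw [map_sub S, map_mul S, map_mul S, S_PK, S_kc, S_C, S_YK, neg_neg]
    rw [e0]
    have e1 : Ex a * (Ex (-L.sum) * Ex η) = 1 := by
      rw [← Ex_add, ← Ex_add, ha]
      have : L.sum - η + (-L.sum + η) = 0 := by ring
      rw [this, Ex_zero]
    have e2 := Ex_mul_neg a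
    linear_combination (-(prodE L * (1 + C (-η) * (X - 1)))) * e1
      + C (2 * t * (2 * η + t)) * (X - 1) ^ 2 * e2

end Pool.Agent.Lib_helper6.SRC
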