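import Pool.Agent.Lib_helper36.SRC.Tools

set_option autoImplicit false

/-! # Lower bounds for the coefficients of a product of normalized coins -/

namespace Pool.Agent.Lib_helper6.SRC

open Finset PowerSeries Pool.Agent.Lib_helper36.SRC

/-- product of normalized coins -/
noncomputable def PK (L : List ℝ) : ℝ⟦X⟧ := (L.map kc).prod
/-- its constant coefficient -/
noncomputable def P0 (L : List ℝ) : ℝ := (L.map (fun s => 1 - s)).prod
/-- sum of the squares -/
noncomputable def QQ (L : List ℝ) : ℝ := (L.map (fun s => s ^ 2)).sum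

lemma PK_nil : PK [] = 1 := by unfold PK; simp
lemma PK_cons (s : ℝ) (L : List ℝ) : PK (s :: L) = kc s * PK L := by unfold PK; simp
lemma P0_nil : P0 [] = 1 := by unfold P0; simp
lemma P0_cons (s : ℝ) (L : List ℝ) : P0 (s :: L) = (1 - s) * P0 L := by unfold P0; simp
lemma QQ_nil : QQ [] = 0 := by unfold QQ; simp
lemma QQ_cons (s : ℝ) (L : List ℝ) : QQ (s :: L) = s ^ 2 + QQ L := by unfold QQ; simp

/-- all leaves are in `[0, 1/2]` -/
def Lf (L : List ℝ) : Prop := ∀ s ∈ L, 0 ≤ s ∧ s ≤ 1 / 2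

lemma Lf.tail {s : ℝ} {L : List ℝ} (h : Lf (s :: L)) : Lf L := fun r hr => h r (by simp [hr])
lemma Lf.head {s : ℝ} {L : List ℝ} (h : Lf (s :: L)) : 0 ≤ s ∧ s ≤ 1 / 2 := h s (by simp)

lemma NN_PK {L : List ℝ} (h : Lf L) : NN (PK L) := by
  induction L with
  | nil => rw [PK_nil]; exact NN.one
  | cons s L ih =>
    rw [PK_cons]
    exact (NN.kc (by linarith [h.head.2])).mul (ih h.tail)

lemma coeff_zero_PK (L : List ℝ) : coeff 0 (PK L) = P0 L := by
  induction L with
  | nil => rw [PK_nil, P0_nil]; simp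
  | cons s L ih =>
    rw [PK_cons, P0_cons, ← ih, ← coeff_kc_zero s, coeff_mul]
    simp

lemma P0_pos {L : List ℝ} (h : Lf L) : 0 < P0 L := by
  induction L with
  | nil => rw [P0_nil]; norm_num
  | cons s L ih =>
    rw [P0_cons]
    exact mul_pos (by linarith [h.head.2]) (ih h.tail)

lemma QQ_nonneg (L : List ℝ) : 0 ≤ QQ L := by
  induction L with
  | nil => rw [QQ_nil]
  | cons s L ih => rw [QQ_cons]; positivity

lemma sum_nonneg_of {L : List ℝ} (h : Lf L) : 0 ≤ L.sum := List.sum_nonneg (fun s hs => (h s hs).1)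

lemma sum_le_len {L : List ℝ} (h : Lf L) : 2 * L.sum ≤ L.length := by
  induction L with
  | nil => simp
  | cons s L ih =>
    rw [List.sum_cons, List.length_cons]
    push_cast
    have := ih h.tail
    have := h.head.2
    linarith

/-- Bernoulli -/
lemma bern {L : List ℝ} (h : Lf L) : 1 + L.length - 2 * L.sum ≤ 2 ^ L.length * P0 L := by
  induction L with
  | nil => rw [P0_nil]; simp
  | cons s L ih =>
    rw [List.sum_cons, List.length_cons, P0_cons, pow_succ]
    push_cast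
    have h1 := ih h.tail
    have h2 := sum_le_len h.tail
    have h3 := h.head.2
    nlinarith

lemma sq_dev (s : ℝ) (L : List ℝ) : 0 ≤ QQ L + L.length * s ^ 2 - 2 * L.sum * s := by
  induction L with
  | nil => rw [QQ_nil]; simp
  | cons r L ih =>
    rw [QQ_cons, List.sum_cons, List.length_cons]
    push_cast
    nlinarith [sq_nonneg (r - s)]

/-- Cauchy-Schwarz -/
lemma cs_list (L : List ℝ) : L.sum ^ 2 ≤ L.length * QQ L := by
  induction L with
  | nil => simp
  | cons s L ih =>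
    rw [QQ_cons, List.sum_cons, List.length_cons]
    push_cast
    nlinarith [sq_dev s L]

/-- two terms of a product -/
lemma coeff_mul_ge {f g : ℝ⟦X⟧} (hf : NN f) (hg : NN g) (n : ℕ) :
    coeff 0 f * coeff (n + 1) g + coeff (n + 1) f * coeff 0 g ≤ coeff (n + 1) (f * g) := by
  rw [coeff_mul]
  have hne : ((0, n + 1) : ℕ × ℕ) ≠ (n + 1, 0) := by
    intro h
    have := congrArg Prod.fst h
    simp at this
  rw [← Finset.sum_pair (f := fun p : ℕ × ℕ => coeff p.1 f * coeff p.2 g) hne]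
  apply Finset.sum_le_sum_of_subset_of_nonneg
  · intro p hp
    simp only [mem_insert, mem_singleton] at hp
    rcases hp with rfl | rfl
    · simp
    · simp
  · intro p _ _
    exact mul_nonneg (hf _) (hg _)

/-- one coin takes the whole level -/
lemma coeff_PK_ge {L : List ℝ} (h : Lf L) (n : ℕ) :
    P0 L * QQ L * ((n : ℝ) + 3 / 2) ^ n / (n + 2).factorial ≤ coeff (n + 2) (PK L) := by
  induction L with
  | nil =>
    rw [QQ_nil, PK_nil]
    simp [coeff_one]
  | cons s L ih =>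
    have ih' := ih h.tail
    obtain ⟨h0, h1⟩ := h.head
    rw [PK_cons, P0_cons, QQ_cons]
    refine le_trans ?_ (coeff_mul_ge (NN.kc (by linarith)) (NN_PK h.tail) (n + 1))
    rw [coeff_kc_zero, coeff_zero_PK, show n + 1 + 1 = n + 2 by rfl, coeff_kc]
    have hp := P0_pos h.tail
    have hq : ((n : ℝ) + 3 / 2) ^ n ≤ ((n : ℝ) + 2 - s) ^ n := by
      apply pow_le_pow_left₀ (by positivity)
      linarith
    have hf : (0 : ℝ) < (n + 2).factorial := by exact_mod_cast (n + 2).factorial_pos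
    have e : (1 - s) * P0 L * (s ^ 2 + QQ L) * ((n : ℝ) + 3 / 2) ^ n / (n + 2).factorial
        = (1 - s) * (P0 L * QQ L * ((n : ℝ) + 3 / 2) ^ n / (n + 2).factorial)
          + s ^ 2 * (1 - s) * ((n : ℝ) + 3 / 2) ^ n / (n + 2).factorial * P0 L := by
      field_simp
      ring
    rw [e]
    apply add_le_add
    · exact mul_le_mul_of_nonneg_left ih' (by linarith)
    · apply mul_le_mul_of_nonneg_right _ hp.le
      apply div_le_div_of_nonneg_right _ hf.le
      exact mul_le_mul_of_nonneg_left hq (mul_nonneg (sq_nonneg _) (by linarith))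

/-- levels one, two and three -/
lemma coeff_PK_small {L : List ℝ} (h : Lf L) :
    P0 L * QQ L ≤ coeff 1 (PK L) ∧ P0 L * QQ L ≤ 2 * coeff 2 (PK L) ∧
      P0 L * (7 / 4 * QQ L + 3 * QQ L ^ 2) ≤ 6 * coeff 3 (PK L) := by
  induction L with
  | nil =>
    rw [QQ_nil, PK_nil]
    simp [coeff_one]
  | cons s L ih =>
    obtain ⟨i1, i2, i3⟩ := ih h.tail
    obtain ⟨h0, h1⟩ := h.head
    have hp := P0_pos h.tail
    have hq := QQ_nonneg L
    rw [PK_cons, P0_cons, QQ_cons]
    have k0 := coeff_kc_zero s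
    have k1 := coeff_kc_one s
    have k2 := coeff_kc s 0
    have k3 := coeff_kc s 1
    have p0 := coeff_zero_PK L
    simp only [Nat.cast_zero, zero_add, pow_zero, mul_one, Nat.factorial] at k2
    simp only [Nat.cast_one, pow_one, Nat.factorial] at k3
    norm_num at k2 k3
    have c1 : coeff 1 (kc s * PK L) = coeff 0 (kc s) * coeff 1 (PK L) + coeff 1 (kc s) * coeff 0 (PK L) := by
      rw [coeff_mul]
      simp [Finset.Nat.antidiagonal_succ]
    have c2 : coeff 2 (kc s * PK L) = coeff 0 (kc s) * coeff 2 (PK L) + coeff 1 (kc s) * coeff 1 (PK L)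
        + coeff 2 (kc s) * coeff 0 (PK L) := by
      rw [coeff_mul]
      simp [Finset.Nat.antidiagonal_succ]
      ring
    have c3 : coeff 3 (kc s * PK L) = coeff 0 (kc s) * coeff 3 (PK L) + coeff 1 (kc s) * coeff 2 (PK L)
        + coeff 2 (kc s) * coeff 1 (PK L) + coeff 3 (kc s) * coeff 0 (PK L) := by
      rw [coeff_mul]
      simp [Finset.Nat.antidiagonal_succ]
      ring
    set F1 := coeff 1 (PK L)
    set F2 := coeff 2 (PK L)
    set F3 := coeff 3 (PK L)
    set p := P0 L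
    set q := QQ L
    have hpq : 0 ≤ p * q := mul_nonneg hp.le hq
    have hs2 : 0 ≤ s ^ 2 := sq_nonneg s
    have h1s : 0 ≤ 1 - s := by linarith
    refine ⟨?_, ?_, ?_⟩
    · rw [c1, k0, k1, p0]
      have a1 := mul_le_mul_of_nonneg_left i1 h1s
      have a2 : (1 - s) * (p * s ^ 2) ≤ 1 * (p * s ^ 2) :=
        mul_le_mul_of_nonneg_right (by linarith) (by positivity)
      nlinarith
    · rw [c2, k0, k1, k2, p0]
      have a1 := mul_le_mul_of_nonneg_left i2 h1s
      have a3 : 0 ≤ s ^ 2 * F1 := mul_nonneg hs2 (le_trans hpq i1)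
      nlinarith
    · rw [c3, k0, k1, k2, k3, p0]
      have a1 := mul_le_mul_of_nonneg_left i3 h1s
      have a2 : s ^ 2 * (1 - s) * (p * q) ≤ s ^ 2 * (2 * F2) := by
        calc s ^ 2 * (1 - s) * (p * q) ≤ s ^ 2 * 1 * (p * q) := by
              apply mul_le_mul_of_nonneg_right _ hpq
              exact mul_le_mul_of_nonneg_left (by linarith) hs2
          _ ≤ s ^ 2 * (2 * F2) := by rw [mul_one]; exact mul_le_mul_of_nonneg_left i2 hs2
      have a3 : s ^ 2 * (1 - s) * (p * q) ≤ s ^ 2 * (1 - s) * F1 :=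
        mul_le_mul_of_nonneg_left i1 (mul_nonneg hs2 h1s)
      have a4 : 0 ≤ (1 - s) * p * (s ^ 2 * (5 / 4 - s - 3 * s ^ 2)) := by
        apply mul_nonneg (mul_nonneg h1s hp.le)
        apply mul_nonneg hs2
        nlinarith
      nlinarith

/-- the basic bound -/
lemma c5 {L : List ℝ} (h : Lf L) (hS : 1 / 2 ≤ L.sum) :
    L.sum / 2 ≤ 2 ^ L.length * P0 L * QQ L := by
  have h1 := bern h
  have h2 := cs_list L
  have h3 := sum_le_len h
  have hq := QQ_nonneg L
  set l : ℝ := (L.length : ℝ)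
  set S := L.sum
  set Q := QQ L
  set Z := 2 ^ L.length * P0 L
  have hl : 0 < l := by linarith
  have h4 : (1 + l - 2 * S) * Q ≤ Z * Q := mul_le_mul_of_nonneg_right h1 hq
  have h5 : l * (S / 2) ≤ l * ((1 + l - 2 * S) * Q) := by
    have h6 : (1 + l - 2 * S) * S ^ 2 ≤ (1 + l - 2 * S) * (l * Q) :=
      mul_le_mul_of_nonneg_left h2 (by linarith)
    have h7 : 0 ≤ S * ((2 * S - 1) * (l - 2 * S)) := by
      apply mul_nonneg (by linarith) (mul_nonneg (by linarith) (by linarith))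
    nlinarith
  exact (le_of_mul_le_mul_left h5 hl).trans h4

/-- the bound for level three -/
lemma c3 {L : List ℝ} (h : Lf L) (hS : 7 / 8 ≤ L.sum) :
    7 / 8 * L.sum + 3 / 4 * L.sum ^ 2 ≤ 2 ^ L.length * P0 L * (7 / 4 * QQ L + 3 * QQ L ^ 2) := by
  have h1 := bern h
  have h2 := cs_list L
  have h3 := sum_le_len h
  have hq := QQ_nonneg L
  set l : ℝ := (L.length : ℝ)
  set S := L.sum
  set Q := QQ L
  set Z := 2 ^ L.length * P0 L
  have hl : 0 < l := by linarith
  have h4 : (1 + l - 2 * S) * (7 / 4 * Q + 3 * Q ^ 2) ≤ Z * (7 / 4 * Q + 3 * Q ^ 2) :=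
    mul_le_mul_of_nonneg_right h1 (by positivity)
  refine le_trans ?_ h4
  have h5 : l ^ 2 * (7 / 8 * S + 3 / 4 * S ^ 2)
      ≤ l ^ 2 * ((1 + l - 2 * S) * (7 / 4 * Q + 3 * Q ^ 2)) := by
    have h6 : 7 / 4 * S ^ 2 * l + 3 * S ^ 4 ≤ l ^ 2 * (7 / 4 * Q + 3 * Q ^ 2) := by
      have h7 : S ^ 4 ≤ (l * Q) ^ 2 := by
        have : S ^ 4 = (S ^ 2) ^ 2 := by ring
        rw [this]
        exact pow_le_pow_left₀ (sq_nonneg _) h2 2
      nlinarith
    have h8 : (1 + l - 2 * S) * (7 / 4 * S ^ 2 * l + 3 * S ^ 4)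
        ≤ (1 + l - 2 * S) * (l ^ 2 * (7 / 4 * Q + 3 * Q ^ 2)) :=
      mul_le_mul_of_nonneg_left h6 (by linarith)
    obtain ⟨x, hx⟩ : ∃ x, x = l - 2 * S := ⟨_, rfl⟩
    have hx0 : 0 ≤ x := by linarith
    have hl2 : l = 2 * S + x := by linarith
    have h9 : 0 ≤ x * (S ^ 2 * (3 * S ^ 2 + S / 2 - 7 / 4)) := by
      apply mul_nonneg hx0 (mul_nonneg (sq_nonneg _) _)
      nlinarith
    have h10 : 0 ≤ x ^ 2 * (S * (S - 7 / 8)) := by
      apply mul_nonneg (sq_nonneg _) (mul_nonneg (by linarith) (by linarith))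
    have h11 : (1 + l - 2 * S) * (7 / 4 * S ^ 2 * l + 3 * S ^ 4)
        - l ^ 2 * (7 / 8 * S + 3 / 4 * S ^ 2)
        = x * (S ^ 2 * (3 * S ^ 2 + S / 2 - 7 / 4)) + x ^ 2 * (S * (S - 7 / 8)) := by
      rw [hl2]; ring
    have h12 : (1 + l - 2 * S) * (l ^ 2 * (7 / 4 * Q + 3 * Q ^ 2))
        = l ^ 2 * ((1 + l - 2 * S) * (7 / 4 * Q + 3 * Q ^ 2)) := by ring
    rw [← h12]
    linarith
  exact le_of_mul_le_mul_left h5 (by positivity)

/-! ## even levels -/

/-- nonnegative combinations of exponentials -/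
inductive EC : ℝ⟦X⟧ → Prop
  | zero : EC 0
  | term (w c : ℝ) (hw : 0 ≤ w) : EC (C w * Ex c)
  | add {F G : ℝ⟦X⟧} (hF : EC F) (hG : EC G) : EC (F + G)

lemma EC.mul_Ex {F : ℝ⟦X⟧} (h : EC F) (w c : ℝ) (hw : 0 ≤ w) : EC (C w * Ex c * F) := by
  induction h with
  | zero => rw [mul_zero]; exact EC.zero
  | term v d hv =>
    have e : C w * Ex c * (C v * Ex d) = C (w * v) * Ex (c + d) := by
      rw [Ex_add, map_mul]; ring
    rw [e]
    exact EC.term _ _ (mul_nonneg hw hv)
  | add _ _ ihF ihG => rw [mul_add]; exact EC.add ihF ihG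

lemma EC.even {F : ℝ⟦X⟧} (h : EC F) (n : ℕ) (hn : Even n) : 0 ≤ coeff n F := by
  induction h with
  | zero => simp
  | term w c hw =>
    rw [coeff_C_mul, coeff_Ex]
    exact mul_nonneg hw (div_nonneg (hn.pow_nonneg c) (by positivity))
  | add _ _ ihF ihG => rw [map_add]; exact add_nonneg ihF ihG

/-- the lower bound of a coin by exponentials -/
noncomputable def EK (s : ℝ) : ℝ⟦X⟧ := Ex s + C (1 - 2 * s) * Ex (-s)

lemma coeff_EK (s : ℝ) (n : ℕ) :
    coeff n (EK s) = (s ^ n + (1 - 2 * s) * (-s) ^ n) / n.factorial := by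
  unfold EK
  rw [map_add, coeff_C_mul, coeff_Ex, coeff_Ex]
  ring

lemma NN_EK {s : ℝ} (h0 : 0 ≤ s) (h1 : s ≤ 1 / 2) : NN (EK s) := by
  intro n
  rw [coeff_EK]
  apply div_nonneg _ (by positivity)
  have h2 : 0 ≤ s ^ n := pow_nonneg h0 n
  have h3 : -(s ^ n) ≤ (-s) ^ n := by
    rcases Nat.even_or_odd n with hn | hn
    · rw [hn.neg_pow]; linarith
    · rw [hn.neg_pow]
  nlinarith

lemma LE_EK_kc {s : ℝ} (h0 : 0 ≤ s) (h1 : s ≤ 1 / 2) : LE (EK s) (C 2 * kc s) := by
  intro n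
  rw [coeff_EK, coeff_C_mul]
  match n with
  | 0 => rw [coeff_kc_zero]; simp; linarith
  | 1 => rw [coeff_kc_one]; simp; nlinarith
  | n + 2 =>
    rw [coeff_kc, ← mul_div_assoc]
    apply div_le_div_of_nonneg_right _ (by positivity)
    have h2 : 0 ≤ s ^ n := pow_nonneg h0 n
    have h3 : (-s) ^ (n + 2) ≤ s ^ (n + 2) := by
      rcases Nat.even_or_odd (n + 2) with hn | hn
      · rw [hn.neg_pow]
      · rw [hn.neg_pow]
        have : 0 ≤ s ^ (n + 2) := pow_nonneg h0 _
        linarith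
    have h4 : s ^ n ≤ ((n : ℝ) + 2 - s) ^ n := by
      apply pow_le_pow_left₀ h0
      have : (0 : ℝ) ≤ n := Nat.cast_nonneg n
      linarith
    have h5 : (1 - 2 * s) * (-s) ^ (n + 2) ≤ (1 - 2 * s) * s ^ (n + 2) :=
      mul_le_mul_of_nonneg_left h3 (by linarith)
    have h6 : 2 * (s ^ 2 * (1 - s)) * s ^ n ≤ 2 * (s ^ 2 * (1 - s)) * ((n : ℝ) + 2 - s) ^ n :=
      mul_le_mul_of_nonneg_left h4 (by
        apply mul_nonneg (by norm_num) (mul_nonneg (sq_nonneg _) (by linarith)))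
    have e : s ^ (n + 2) = s ^ n * s ^ 2 := pow_add _ _ _
    rw [e] at h5
    rw [e]
    linarith

/-- product of the lower bounds -/
noncomputable def EP (L : List ℝ) : ℝ⟦X⟧ := (L.map EK).prod

lemma NN_EP {L : List ℝ} (h : Lf L) : NN (EP L) := by
  unfold EP
  induction L with
  | nil => simp; exact NN.one
  | cons s L ih =>
    rw [List.map_cons, List.prod_cons]
    exact (NN_EK h.head.1 h.head.2).mul (ih h.tail)

lemma LE_EP_PK {L : List ℝ} (h : Lf L) : LE (EP L) (C (2 ^ L.length) * PK L) := by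
  induction L with
  | nil => unfold EP; rw [PK_nil]; simp; exact LE.refl _
  | cons s L ih =>
    have e1 : EP (s :: L) = EK s * EP L := by unfold EP; simp
    have e2 : C ((2 : ℝ) ^ (s :: L).length) * PK (s :: L)
        = (C 2 * kc s) * (C (2 ^ L.length) * PK L) := by
      rw [PK_cons, List.length_cons, pow_succ, map_mul]; ring
    rw [e1, e2]
    exact (LE_EK_kc h.head.1 h.head.2).mul (ih h.tail)
      ((NN.kc (by linarith [h.head.2])).smul (by norm_num)) (NN_EP h.tail)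

lemma EP_eq {L : List ℝ} (h : Lf L) : ∃ R : ℝ⟦X⟧, EC R ∧ EP L = Ex L.sum + R := by
  induction L with
  | nil => exact ⟨0, EC.zero, by unfold EP; simp [Ex_zero]⟩
  | cons s L ih =>
    obtain ⟨R, hR, hE⟩ := ih h.tail
    have hs : 0 ≤ 1 - 2 * s := by linarith [h.head.2]
    refine ⟨C (1 - 2 * s) * Ex (-s + L.sum) + (C 1 * Ex s * R + C (1 - 2 * s) * Ex (-s) * R),
      (EC.term _ _ hs).add ((hR.mul_Ex _ _ zero_le_one).add (hR.mul_Ex _ _ hs)), ?_⟩
    have e1 : EP (s :: L) = EK s * EP L := by unfold EP; simp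
    rw [e1, hE, List.sum_cons, Ex_add, Ex_add]
    unfold EK
    rw [map_one]
    ring

/-- even levels -/
lemma coeff_PK_even {L : List ℝ} (h : Lf L) (n : ℕ) (hn : Even n) :
    L.sum ^ n / n.factorial ≤ 2 ^ L.length * coeff n (PK L) := by
  have h1 := LE_EP_PK h n
  obtain ⟨R, hR, hE⟩ := EP_eq h
  rw [hE, map_add, coeff_Ex, coeff_C_mul] at h1
  have := hR.even n hn
  linarith

end Pool.Agent.Lib_helper6.SRC
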