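import Pool.Agent.Lib_helper6.SRC.Hon

set_option autoImplicit false

/-! # A criterion for `κ^k (q (1 + μ y) + e y²)`, `k ≥ 2` -/

namespace Pool.Agent.Lib_helper6.SRC

open Finset PowerSeries Pool.Agent.Lib_helper36.SRC

lemma G1_ratio (n : ℕ) : 1 / 4 * coeff n G1 ≤ coeff (n + 1) G1 := by
  match n with
  | 0 => rw [coeff_G1_zero, coeff_G1_one]; norm_num
  | 1 => rw [coeff_G1_one, coeff_G1_two]; norm_num
  | n + 2 =>
    rw [coeff_G1, show n + 2 + 1 = (n + 1) + 2 by rfl, coeff_G1,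
      show n + 1 + 2 = (n + 2) + 1 by rfl, Nat.factorial_succ (n + 2)]
    have hf : (0 : ℝ) < (n + 2).factorial := by positivity
    have hn : (0 : ℝ) ≤ n := Nat.cast_nonneg n
    have h1 : ((n : ℝ) + 3 / 2) ^ n ≤ ((n : ℝ) + 5 / 2) ^ n :=
      pow_le_pow_left₀ (by positivity) (by linarith) n
    push_cast
    have e : (n : ℝ) + 1 + 3 / 2 = n + 5 / 2 := by ring
    rw [e, pow_succ]
    have e2 : (1 : ℝ) / 4 * (((n : ℝ) + 5 / 2) ^ n * ((n : ℝ) + 5 / 2)) /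
        (((n : ℝ) + 2 + 1) * ((n + 2).factorial : ℝ))
        = (1 / 4 * ((n : ℝ) + 5 / 2) ^ n) * (((n : ℝ) + 5 / 2) / (n + 2 + 1)) /
          ((n + 2).factorial : ℝ) := by
      have : (n : ℝ) + 2 + 1 ≠ 0 := by positivity
      field_simp
    rw [e2, ← mul_div_assoc]
    apply div_le_div_of_nonneg_right _ hf.le
    have h2 : (1 : ℝ) / 4 ≤ ((n : ℝ) + 5 / 2) / (n + 2 + 1) := by
      rw [le_div_iff₀ (by positivity)]; linarith
    have h3 : 0 ≤ ((n : ℝ) + 3 / 2) ^ n := by positivity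
    calc 1 / 4 * (1 / 4 * ((n : ℝ) + 3 / 2) ^ n) ≤ 1 / 4 * (1 / 4 * ((n : ℝ) + 5 / 2) ^ n) := by
          linarith
      _ = (1 / 4 * ((n : ℝ) + 5 / 2) ^ n) * (1 / 4) := by ring
      _ ≤ _ := mul_le_mul_of_nonneg_left h2 (by positivity)

/-- `(m0 + m1 x + m2 x^2) exp ((1/2 - μ) x)` in `t` -/
noncomputable def mh (μ m0 m1 m2 : ℝ) : ℝ⟦X⟧ :=
  C m0 * ab (1 / 2 - μ) + C m1 * (X * ab (3 / 2 - μ)) + C m2 * (X ^ 2 * ab (5 / 2 - μ))

lemma S_mh (μ m0 m1 m2 : ℝ) : S (mh μ m0 m1 m2)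
    = (C m0 + C m1 * X + C m2 * X ^ 2) * Ex (1 / 2 - μ) := by
  unfold mh
  have e1 : S (X * ab (3 / 2 - μ)) = X * Ex (1 / 2 - μ) := by
    have := S_Xab 1 (1 / 2 - μ)
    rw [pow_one] at this
    rw [← this]; congr 3; push_cast; ring
  have e2 : S (X ^ 2 * ab (5 / 2 - μ)) = X ^ 2 * Ex (1 / 2 - μ) := by
    rw [← S_Xab 2 (1 / 2 - μ)]; congr 3; push_cast; ring
  rw [map_add, map_add, map_mul S (C m0), map_mul S (C m1), map_mul S (C m2), S_C, S_C, S_C,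
    S_ab, e1, e2]
  ring

lemma coeff_mh_zero (μ m0 m1 m2 : ℝ) : coeff 0 (mh μ m0 m1 m2) = m0 := by
  unfold mh
  rw [map_add, map_add, coeff_C_mul, coeff_C_mul, coeff_C_mul, coeff_ab_zero]
  simp

lemma coeff_mh_one (μ m0 m1 m2 : ℝ) : coeff 1 (mh μ m0 m1 m2) = m0 * (1 / 2 - μ) + m1 := by
  have h3 (c : ℝ) : coeff 1 (ab c) = c := by
    have := coeff_ab_succ c 0
    simpa using this
  have h2 : coeff 1 (X * ab (3 / 2 - μ)) = coeff 0 (ab (3 / 2 - μ)) := coeff_succ_X_mul 0 _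
  have h1 : coeff 1 (X ^ 2 * ab (5 / 2 - μ)) = 0 := by
    rw [coeff_X_pow_mul', if_neg (by omega)]
  unfold mh
  rw [map_add, map_add, coeff_C_mul, coeff_C_mul, coeff_C_mul, h1, h2, h3, coeff_ab_zero]
  ring

lemma coeff_mh (μ m0 m1 m2 : ℝ) (hμ : μ ≤ 1) (m : ℕ) :
    coeff (m + 2) (mh μ m0 m1 m2) * (((m + 2).factorial : ℝ) * ((m : ℝ) + 5 / 2 - μ))
      = ((m : ℝ) + 5 / 2 - μ) ^ m * (m0 * (1 / 2 - μ) * ((m : ℝ) + 5 / 2 - μ) ^ 2
        + m1 * (3 / 2 - μ) * ((m : ℝ) + 2) * ((m : ℝ) + 5 / 2 - μ)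
        + m2 * (5 / 2 - μ) * ((m : ℝ) + 2) * ((m : ℝ) + 1)) := by
  have hm : (0 : ℝ) ≤ m := Nat.cast_nonneg m
  have hX : (m : ℝ) + 5 / 2 - μ ≠ 0 := by
    have : 0 < (m : ℝ) + 5 / 2 - μ := by linarith
    exact this.ne'
  have a0 : coeff (m + 2) (ab (1 / 2 - μ))
      = (1 / 2 - μ) * ((m : ℝ) + 5 / 2 - μ) ^ (m + 1) / (m + 2).factorial := by
    rw [show m + 2 = (m + 1) + 1 by rfl, coeff_ab_succ]
    congr 3
    push_cast; ring
  have a1 : coeff (m + 2) (X * ab (3 / 2 - μ))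
      = (3 / 2 - μ) * ((m : ℝ) + 5 / 2 - μ) ^ m / (m + 1).factorial := by
    rw [show m + 2 = (m + 1) + 1 by rfl, coeff_succ_X_mul, coeff_ab_succ]
    congr 3
    ring
  have a2 : coeff (m + 2) (X ^ 2 * ab (5 / 2 - μ)) * ((m : ℝ) + 5 / 2 - μ)
      = (5 / 2 - μ) * ((m : ℝ) + 5 / 2 - μ) ^ m / m.factorial := by
    rw [coeff_X_pow_mul', if_pos (by omega), show m + 2 - 2 = m by omega]
    rcases Nat.eq_zero_or_pos m with h | h
    · subst h; rw [coeff_ab_zero]; simp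
    · obtain ⟨k, rfl⟩ : ∃ k, m = k + 1 := ⟨m - 1, by omega⟩
      rw [coeff_ab_succ, pow_succ]
      have e : (5 / 2 - μ + ((k : ℝ) + 1)) = ((k + 1 : ℕ) : ℝ) + 5 / 2 - μ := by push_cast; ring
      rw [e]
      ring
  unfold mh
  rw [map_add, map_add, coeff_C_mul, coeff_C_mul, coeff_C_mul, a0, a1]
  have f1 : ((m + 2).factorial : ℝ) = (m + 2) * (m + 1) * m.factorial := by
    rw [Nat.factorial_succ (m + 1), Nat.factorial_succ m]; push_cast; ring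
  have f2 : ((m + 1).factorial : ℝ) = (m + 1) * m.factorial := by
    rw [Nat.factorial_succ m]; push_cast; ring
  have hf : (m.factorial : ℝ) ≠ 0 := by exact_mod_cast m.factorial_ne_zero
  rw [f1, f2]
  have h1 : (m : ℝ) + 1 ≠ 0 := by positivity
  have h2 : (m : ℝ) + 2 ≠ 0 := by positivity
  have e : m2 * coeff (m + 2) (X ^ 2 * ab (5 / 2 - μ)) * (((m : ℝ) + 2) * (m + 1) * m.factorial
      * ((m : ℝ) + 5 / 2 - μ)) = m2 * ((m : ℝ) + 2) * (m + 1) * ((5 / 2 - μ) * ((m : ℝ) + 5 / 2 - μ) ^ m) := by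
    calc _ = m2 * ((m : ℝ) + 2) * (m + 1) * m.factorial *
        (coeff (m + 2) (X ^ 2 * ab (5 / 2 - μ)) * ((m : ℝ) + 5 / 2 - μ)) := by ring
      _ = _ := by rw [a2]; field_simp
  rw [add_mul, e, pow_succ]
  field_simp

/-- nonnegativity with one honest coin -/
lemma NN_G1_mh {μ m0 m1 m2 : ℝ} (hμ : μ ≤ 1) (h0 : 0 ≤ m0)
    (h1 : 0 ≤ m0 * (1 / 2 - μ) + m1 + 1 / 4 * m0)
    (h2 : ∀ m : ℝ, 0 ≤ m → 0 ≤ m0 * (1 / 2 - μ) * (m + 5 / 2 - μ) ^ 2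
        + m1 * (3 / 2 - μ) * (m + 2) * (m + 5 / 2 - μ)
        + m2 * (5 / 2 - μ) * (m + 2) * (m + 1)) : NN (G1 * mh μ m0 m1 m2) := by
  obtain ⟨b, hb⟩ : ∃ b, b = m0 * (1 / 2 - μ) + m1 := ⟨_, rfl⟩
  rw [← hb] at h1
  obtain ⟨r, hr⟩ : ∃ r, r = mh μ m0 m1 m2 - (C m0 + C b * X) := ⟨_, rfl⟩
  have hrn : NN r := by
    intro n
    rw [hr, map_sub, map_add, coeff_C_mul, coeff_C, coeff_X]
    match n with
    | 0 => rw [coeff_mh_zero]; simp
    | 1 => rw [coeff_mh_one, ← hb]; simp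
    | m + 2 =>
      rw [if_neg (by omega), if_neg (by omega)]
      have hm : (0 : ℝ) ≤ m := Nat.cast_nonneg m
      have h3 := coeff_mh μ m0 m1 m2 hμ m
      have h4 := mul_nonneg (pow_nonneg (by linarith : 0 ≤ (m : ℝ) + 5 / 2 - μ) m) (h2 m hm)
      rw [← h3] at h4
      have h5 : 0 < ((m + 2).factorial : ℝ) * ((m : ℝ) + 5 / 2 - μ) :=
        mul_pos (by positivity) (by linarith)
      have := nonneg_of_mul_nonneg_left h4 h5
      linarith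
  have e : G1 * mh μ m0 m1 m2 = G1 * (C m0 + C b * X) + G1 * r := by rw [hr]; ring
  rw [e]
  refine NN.add ?_ (NN_G1.mul hrn)
  intro n
  have e2 : G1 * (C m0 + C b * X) = C m0 * G1 + C b * (X * G1) := by ring
  rw [e2, map_add, coeff_C_mul, coeff_C_mul]
  match n with
  | 0 => rw [coeff_G1_zero]; simp; exact h0
  | n + 1 =>
    rw [coeff_succ_X_mul]
    have h3 := G1_ratio n
    have h4 := NN_G1 n
    have h5 := mul_le_mul_of_nonneg_left h3 h0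
    have h6 := mul_nonneg h1 h4
    linarith

/-- **Criterion** -/
theorem inW_quad {k : ℕ} (hk : 2 ≤ k) {μ q e m0 m1 m2 : ℝ} (hμ : μ ≤ 1)
    (e0 : m0 = k / 2 * (q * (1 - μ) + e) - (2 * e - μ ^ 2 * q) - μ * e)
    (e1 : m1 = k / 2 * (q * μ - 2 * e) - (2 * e - μ ^ 2 * q))
    (e2 : m2 = k / 2 * e + μ * e)
    (hc : 0 ≤ q * (1 - μ) + e) (h0 : 0 ≤ m0)
    (h1 : 0 ≤ m0 * (1 / 2 - μ) + m1 + 1 / 4 * m0)
    (h2 : ∀ m : ℝ, 0 ≤ m → 0 ≤ m0 * (1 / 2 - μ) * (m + 5 / 2 - μ) ^ 2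
        + m1 * (3 / 2 - μ) * (m + 2) * (m + 5 / 2 - μ)
        + m2 * (5 / 2 - μ) * (m + 2) * (m + 1)) :
    InW (k / 2 + μ) ((1 + C (1 / 2) * (X - 1)) ^ k *
      (C q * (1 + C μ * (X - 1)) + C e * (X - 1) ^ 2)) := by
  obtain ⟨j, rfl⟩ : ∃ j, k = j + 2 := ⟨k - 2, by omega⟩
  have k1 : (1 + C (1 / 2) * (X - 1) : ℝ⟦X⟧) = C (1 / 2) * (1 + X) := by
    have e1 : (1 : ℝ⟦X⟧) = C (1 / 2) + C (1 / 2) := by rw [← map_add]; norm_num
    linear_combination e1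
  apply InW.of_deriv (R := C (1 / 2) ^ (j + 2) * ((1 + X) ^ (j + 1) * (C m0 + C m1 * X + C m2 * X ^ 2)))
  · rw [map_mul]
    apply mul_nonneg
    · rw [k1]; simp
    · simp
      linarith
  · apply InW.intro (τ := C ((1 / 2) ^ (j + 2)) * (G1 ^ j * (G1 * mh μ m0 m1 m2)))
    · exact (NN.C (by positivity)).mul ((NN_G1_pow j).mul (NN_G1_mh hμ h0 h1 h2))
    · rw [map_mul, S_C, ← mul_assoc (G1 ^ j), ← pow_succ, map_mul, S_G1_pow, S_mh, map_pow]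
      have x1 : Ex (((j + 2 : ℕ) : ℝ) / 2 + μ - 1) * (Ex (-(((j + 1 : ℕ) : ℝ) / 2)) * Ex (1 / 2 - μ)) = 1 := by
        rw [← Ex_add, ← Ex_add, ← Ex_zero]
        congr 1
        push_cast; ring
      linear_combination (-(C (1 / 2) ^ (j + 2) * ((1 + X) ^ (j + 1) *
        (C m0 + C m1 * X + C m2 * X ^ 2)))) * x1
  · obtain ⟨w, hw⟩ : ∃ w : ℝ⟦X⟧, w = C (((j + 2 : ℕ) : ℝ) / 2) := ⟨_, rfl⟩
    have hw2 : ((j : ℝ⟦X⟧) + 2) = 2 * w := by
      have a1 : (C (2 : ℝ) : ℝ⟦X⟧) = 2 := map_ofNat C 2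
      have a2 : (C (j : ℝ) : ℝ⟦X⟧) = (j : ℝ⟦X⟧) := map_natCast C j
      rw [hw, ← a1, ← a2, ← map_add, ← map_mul]
      congr 1
      push_cast; ring
    have dκ : d⁄dX ℝ (1 + C (1 / 2) * (X - 1) : ℝ⟦X⟧) = C (1 / 2) := by
      rw [map_add, Derivation.leibniz, map_sub, derivative_X, derivative_C]
      simp
    have dQ : d⁄dX ℝ (C q * (1 + C μ * (X - 1)) + C e * (X - 1) ^ 2 : ℝ⟦X⟧)
        = C q * C μ + C e * (2 * (X - 1)) := by
      have dm (u : ℝ) (f : ℝ⟦X⟧) : d⁄dX ℝ (C u * f) = C u * d⁄dX ℝ f := by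
        rw [Derivation.leibniz, derivative_C]; simp
      have dX1 : d⁄dX ℝ (X - 1 : ℝ⟦X⟧) = 1 := by rw [map_sub, derivative_X]; simp
      rw [map_add, dm, dm, map_add, dm, dX1, Derivation.leibniz_pow, dX1]
      simp
    have d1 : d⁄dX ℝ ((1 + C (1 / 2) * (X - 1)) ^ (j + 2) *
        (C q * (1 + C μ * (X - 1)) + C e * (X - 1) ^ 2))
        = (2 * w) * (1 + C (1 / 2) * (X - 1)) ^ (j + 1) * C (1 / 2) *
          (C q * (1 + C μ * (X - 1)) + C e * (X - 1) ^ 2)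
          + (1 + C (1 / 2) * (X - 1)) ^ (j + 2) * (C q * C μ + C e * (2 * (X - 1))) := by
      rw [Derivation.leibniz, Derivation.leibniz_pow, dκ, dQ, ← hw2]
      simp only [smul_eq_mul, nsmul_eq_mul]
      have : j + 2 - 1 = j + 1 := by omega
      rw [this]
      push_cast
      ring
    rw [d1, k1]
    have c0 : C m0 = w * (C q * (1 - C μ) + C e) - (2 * C e - C μ ^ 2 * C q) - C μ * C e := by
      have a1 : (C (2 : ℝ) : ℝ⟦X⟧) = 2 := map_ofNat C 2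
      rw [e0, hw, ← a1, ← map_one C]
      simp only [← map_mul, ← map_sub, ← map_add, ← map_pow]
    have c1 : C m1 = w * (C q * C μ - 2 * C e) - (2 * C e - C μ ^ 2 * C q) := by
      have a1 : (C (2 : ℝ) : ℝ⟦X⟧) = 2 := map_ofNat C 2
      rw [e1, hw, ← a1]
      simp only [← map_mul, ← map_sub, ← map_pow]
    have c2 : C m2 = w * C e + C μ * C e := by
      rw [e2, hw]
      simp only [← map_mul, ← map_add]
    have cν : C (((j + 2 : ℕ) : ℝ) / 2 + μ) = w + C μ := by rw [map_add, hw]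
    rw [c0, c1, c2, cν, mul_pow, mul_pow]
    ring

end Pool.Agent.Lib_helper6.SRC
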