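import Pool.Agent.Lib_helper6.SRC.Hon
import Pool.Agent.Lib_helper36.SRC.StarLemma

set_option autoImplicit false

/-! # The claim `Z` -/

namespace Pool.Agent.Lib_helper6.SRC

open Finset PowerSeries Pool.Agent.Lib_helper36.SRC

lemma NN.mul_le {f g h : ℝ⟦X⟧} (hh : NN h) (hfg : LE f g) : LE (h * f) (h * g) := by
  rw [LE.iff_sub] at hfg ⊢
  rw [← mul_sub]
  exact hh.mul hfg

/-- lower bound for `1 + μ y + e y^2` -/
lemma LE_qq {μ e : ℝ} (h0 : 0 ≤ e) (h1 : e ≤ μ) (h2 : μ ≤ 1 / 4) :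
    LE (C (1 - μ) + C e * YK 0) (kc μ + C e * YK μ) := by
  have hμ : 0 ≤ μ := h0.trans h1
  have hk := NN.kc (s := μ) (by linarith)
  intro n
  rw [map_add, map_add, coeff_C_mul, coeff_C_mul]
  match n with
  | 0 => rw [coeff_YK_zero, coeff_YK_zero, coeff_kc_zero, coeff_C]; simp
  | 1 =>
    rw [coeff_YK_one, coeff_YK_one, coeff_kc_one, coeff_C]
    simp
    nlinarith
  | 2 =>
    rw [coeff_YK_two, coeff_YK_two, coeff_C]
    have := hk 2
    simp
    nlinarith [sq_nonneg μ, mul_nonneg h0 hμ]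
  | n + 3 =>
    rw [coeff_YK, coeff_YK, coeff_C, if_neg (by omega)]
    have := hk (n + 3)
    have hf : (0 : ℝ) < (n + 3).factorial := by positivity
    have hn : (0 : ℝ) ≤ n := Nat.cast_nonneg n
    have key : ((n : ℝ) + 3 - 0) ^ n * ((3 * 0 - 2) * ((n : ℝ) + 3) - 0 ^ 3)
        ≤ ((n : ℝ) + 3 - μ) ^ n * ((3 * μ - 2) * ((n : ℝ) + 3) - μ ^ 3) := by
      have p1 : ((n : ℝ) + 3 - μ) ^ n ≤ ((n : ℝ) + 3) ^ n :=
        pow_le_pow_left₀ (by linarith) (by linarith) n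
      have p2 : 0 ≤ (2 - 3 * μ) * ((n : ℝ) + 3) + μ ^ 3 := by
        have : 0 ≤ (2 - 3 * μ) * ((n : ℝ) + 3) := mul_nonneg (by linarith) (by linarith)
        positivity
      have p3 : (2 - 3 * μ) * ((n : ℝ) + 3) + μ ^ 3 ≤ 2 * ((n : ℝ) + 3) := by
        have : μ ^ 3 ≤ μ * 1 := by nlinarith [mul_nonneg hμ (sq_nonneg μ)]
        nlinarith [mul_nonneg hμ hn]
      have p4 := mul_le_mul_of_nonneg_right p1 p2
      have p5 := mul_le_mul_of_nonneg_left p3 (pow_nonneg (by linarith : 0 ≤ (n : ℝ) + 3) n)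
      have e0 : (n : ℝ) + 3 - 0 = n + 3 := by ring
      rw [e0]
      nlinarith
    have k2 := div_le_div_of_nonneg_right key hf.le
    have k3 := mul_le_mul_of_nonneg_left k2 h0
    linarith

/-- **lower bound of the main part** -/
lemma LE_main {μ e : ℝ} {l : ℕ} (hl : 4 ≤ l) (h0 : 0 ≤ e) (h1 : e ≤ μ) (h2 : μ ≤ 1 / 4) :
    LE (C (1 - μ - 9 / 2 * e) * G1 ^ l) (G1 ^ l * (kc μ + C e * YK μ)) := by
  have a1 := NN.mul_le (NN_G1_pow l) (LE_qq h0 h1 h2)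
  refine LE.trans ?_ a1
  rw [LE.iff_sub]
  have e1 : G1 ^ l = G1 ^ (l - 4) * G1 ^ 4 := by rw [← pow_add]; congr 1; omega
  have e2 : G1 ^ l * (C (1 - μ) + C e * YK 0) - C (1 - μ - 9 / 2 * e) * G1 ^ l
      = C e * (G1 ^ (l - 4) * (G1 ^ 4 * (YK 0 + C (9 / 2)))) := by
    rw [← mul_assoc (G1 ^ (l - 4)), ← e1]
    have e3 : C (1 - μ - 9 / 2 * e) = C (1 - μ) - C (9 / 2) * C e := by
      rw [← map_mul, ← map_sub]
    rw [e3]
    ring
  rw [e2]
  exact (NN.C h0).mul ((NN_G1_pow _).mul NN_block)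

lemma pow_two_aux {l : ℝ} (hl : 0 < l) (n : ℕ) (hn : (n : ℝ) ≤ l) :
    (l / 2 + 1 / 4) ^ n ≤ 2 * (l / 2) ^ n := by
  have h1 : (1 : ℝ) - n * (1 / (2 * l)) ≤ (1 - 1 / (2 * l)) ^ n := by
    rcases Nat.eq_zero_or_pos n with h | h
    · subst h; simp
    · have hl1 : 1 ≤ l := by
        have : (1 : ℝ) ≤ n := by exact_mod_cast h
        linarith
      have hx : 1 / (2 * l) ≤ 1 / 2 := by
        rw [div_le_div_iff₀ (by linarith) (by norm_num)]; linarith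
      have := one_add_mul_le_pow (a := -(1 / (2 * l))) (by linarith) n
      have e1 : 1 + (n : ℝ) * (-(1 / (2 * l))) = 1 - n * (1 / (2 * l)) := by ring
      have e2 : 1 + -(1 / (2 * l)) = 1 - 1 / (2 * l) := by ring
      rw [e1, e2] at this
      exact this
  rcases Nat.eq_zero_or_pos n with h | h
  · subst h; simp
  have hl1 : 1 ≤ l := by
    have : (1 : ℝ) ≤ n := by exact_mod_cast h
    linarith
  have hx : 1 / (2 * l) ≤ 1 / 2 := by
    rw [div_le_div_iff₀ (by linarith) (by norm_num)]; linarith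
  have hx0 : 0 < 1 / (2 * l) := by positivity
  have h2 : (1 : ℝ) / 2 ≤ 1 - n * (1 / (2 * l)) := by
    have : (n : ℝ) * (1 / (2 * l)) ≤ l * (1 / (2 * l)) := mul_le_mul_of_nonneg_right hn hx0.le
    have e : l * (1 / (2 * l)) = 1 / 2 := by field_simp
    linarith
  have h3 : (1 + 1 / (2 * l)) ^ n * (1 - 1 / (2 * l)) ^ n ≤ 1 := by
    rw [← mul_pow]
    apply pow_le_one₀
    · apply mul_nonneg <;> linarith
    · nlinarith
  have h4 : (1 + 1 / (2 * l)) ^ n ≤ 2 := by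
    have h5 : 0 ≤ (1 + 1 / (2 * l)) ^ n := by positivity
    nlinarith [mul_le_mul_of_nonneg_left (h2.trans h1) h5]
  have e : l / 2 + 1 / 4 = l / 2 * (1 + 1 / (2 * l)) := by field_simp; ring
  rw [e, mul_pow]
  have : 0 ≤ (l / 2) ^ n := by positivity
  nlinarith

/-- **upper bound of the error part** -/
lemma abs_YK_le {l : ℕ} (hl : 4 ≤ l) {μ : ℝ} (h0 : 0 ≤ μ) (h1 : μ ≤ 1 / 4) (n : ℕ) :
    |coeff n (YK (l / 2 + μ))| ≤ 4 * coeff n (G1 ^ l) := by
  have hl4 : (4 : ℝ) ≤ l := by exact_mod_cast hl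
  obtain ⟨a, ha⟩ : ∃ a : ℝ, a = l / 2 + μ := ⟨_, rfl⟩
  rw [← ha]
  have ha2 : 2 ≤ a := by linarith
  match n with
  | 0 => rw [coeff_YK_zero, coeff_G1_pow_zero]; norm_num
  | 1 =>
    rw [coeff_YK_one, coeff_G1_pow_one, abs_of_nonpos (by linarith)]
    linarith
  | 2 =>
    rw [coeff_YK_two, coeff_G1_pow_two, abs_of_nonneg (by nlinarith)]
    rw [ha]
    nlinarith
  | n + 3 =>
    rw [coeff_YK]
    have hf : (0 : ℝ) < (n + 3).factorial := by positivity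
    have hn : (0 : ℝ) ≤ n := Nat.cast_nonneg n
    obtain ⟨N, hN⟩ : ∃ N : ℝ, N = (n : ℝ) + 3 := ⟨_, rfl⟩
    rw [← hN]
    have hN3 : 3 ≤ N := by linarith
    rw [abs_div, abs_mul, abs_pow, abs_of_pos hf, div_le_iff₀ hf]
    rcases le_or_gt N (2 * a) with hNa | hNa
    · -- small `N`
      have g1 := LE_Ex_G1_pow l (n + 3)
      rw [coeff_Ex, div_le_iff₀ hf] at g1
      have hNl : ((n + 3 : ℕ) : ℝ) ≤ l := by
        have : ((n + 3 : ℕ) : ℝ) < (l : ℝ) + 1 := by push_cast; linarith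
        have h' : n + 3 < l + 1 := by exact_mod_cast this
        exact_mod_cast Nat.lt_succ_iff.1 h'
      have g2 := pow_two_aux (by linarith) (n + 3) hNl
      have g3 : a ^ (n + 3) ≤ ((l : ℝ) / 2 + 1 / 4) ^ (n + 3) :=
        pow_le_pow_left₀ (by linarith) (by linarith) _
      have b1 : |N - a| ^ n ≤ a ^ n := by
        apply pow_le_pow_left₀ (abs_nonneg _)
        rw [abs_le]; constructor <;> linarith
      have b2 : |(3 * a - 2) * N - a ^ 3| ≤ a ^ 3 := by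
        rw [abs_le]
        constructor
        · have : 0 ≤ (3 * a - 2) * N := mul_nonneg (by linarith) (by linarith)
          linarith
        · have q1 : (3 * a - 2) * N ≤ (3 * a - 2) * (2 * a) :=
            mul_le_mul_of_nonneg_left hNa (by linarith)
          have q2 : 0 ≤ a * ((a - 1) * (a - 2)) :=
            mul_nonneg (by linarith) (mul_nonneg (by linarith) (by linarith))
          nlinarith
      have b3 : |N - a| ^ n * |(3 * a - 2) * N - a ^ 3| ≤ a ^ n * a ^ 3 :=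
        mul_le_mul b1 b2 (abs_nonneg _) (pow_nonneg (by linarith) _)
      rw [← pow_add] at b3
      have b4 : 0 ≤ ((l : ℝ) / 2) ^ (n + 3) := by positivity
      linarith
    · -- large `N`
      have g1 := coeff_G1_pow_ge l (n + 2)
      rw [show n + 2 + 1 = (n + 1) + 2 by rfl, coeff_G1, show n + 1 + 2 = n + 3 by rfl] at g1
      have g2 : (l : ℝ) * (1 / 4 * (N - 1 / 2) ^ (n + 1)) ≤ coeff (n + 3) (G1 ^ l) * (n + 3).factorial := by
        have e : ((n + 1 : ℕ) : ℝ) + 3 / 2 = N - 1 / 2 := by rw [hN]; push_cast; ring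
        rw [e] at g1
        have := mul_le_mul_of_nonneg_right g1 hf.le
        refine le_trans (le_of_eq ?_) this
        field_simp
      have hd : 0 < N - a := by linarith
      have p1 := pow_bern a N (n + 1) (by linarith) (by linarith)
      have em : ((n + 1 : ℕ) : ℝ) = N - 2 := by rw [hN]; push_cast; ring
      rw [em] at p1
      rw [abs_of_pos hd]
      -- the linear inequality
      have p2 : |(3 * a - 2) * N - a ^ 3| ≤ (2 * a - 1 / 2) * (N - a + (N - 2) * (a - 1 / 2)) := by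
        have q3 : 0 ≤ (N - 2 * a) * (2 * a ^ 2 - 5 / 2 * a + 7 / 4) :=
          mul_nonneg (by linarith) (by nlinarith)
        have q4 : 0 ≤ (N - 2 * a) * (2 * a ^ 2 + 7 / 2 * a - 9 / 4) :=
          mul_nonneg (by linarith) (by nlinarith)
        have q5 : 0 ≤ a * ((a - 2) * (a - 2)) := mul_nonneg (by linarith) (mul_self_nonneg _)
        rw [abs_le]
        constructor
        · nlinarith
        · nlinarith
      have p3 : (N - a) ^ n * |(3 * a - 2) * N - a ^ 3| * (N - a)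
          ≤ (2 * a - 1 / 2) * ((N - a) ^ (n + 1) * (N - a + (N - 2) * (a - 1 / 2))) := by
        have := mul_le_mul_of_nonneg_left p2 (pow_nonneg hd.le (n + 1))
        calc (N - a) ^ n * |(3 * a - 2) * N - a ^ 3| * (N - a)
            = (N - a) ^ (n + 1) * |(3 * a - 2) * N - a ^ 3| := by rw [pow_succ]; ring
          _ ≤ _ := this
          _ = _ := by ring
      have p4 := mul_le_mul_of_nonneg_left p1 (by linarith : 0 ≤ 2 * a - 1 / 2)
      have p5 : (2 * a - 1 / 2) * ((N - a) * (N - 1 / 2) ^ (n + 1))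
          ≤ l * ((N - 1 / 2) ^ (n + 1)) * (N - a) := by
        have : 0 ≤ (N - a) * (N - 1 / 2) ^ (n + 1) :=
          mul_nonneg hd.le (pow_nonneg (by linarith) _)
        nlinarith
      have p6 := (p3.trans p4).trans p5
      have p7 : (N - a) ^ n * |(3 * a - 2) * N - a ^ 3| ≤ l * ((N - 1 / 2) ^ (n + 1)) :=
        le_of_mul_le_mul_right p6 hd
      linarith

lemma prodC_rep (l : ℕ) : Pool.Agent.Lib_helper79.SRC.prodC (List.replicate l (1 / 2))
    = (1 + C (1 / 2) * (X - 1)) ^ l := by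
  unfold Pool.Agent.Lib_helper79.SRC.prodC
  rw [List.map_replicate, List.prod_replicate]

/-- the remainder -/
lemma inW_rem {l : ℕ} {p t ρ : ℝ} (hl : 4 ≤ l) (hp : p = (1 / 2) ^ (l + 1)) (h4 : 2 * p ≤ t)
    (ht : t ≤ 1 / 8) (hρ : 0 ≤ ρ) (hρ2 : ρ ≤ t / 2) :
    InW (l / 2 + (p + t + ρ)) (C (1 / 2) * (1 + C (1 / 2) * (X - 1)) ^ l *
      (1 + C (p + t + ρ) * (X - 1) + C (8 * t * (t - ρ)) * (X - 1) ^ 2)
      - C (p * (2 * ρ - p)) * (X - 1) ^ 2) := by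
  have hp0 : 0 < p := by rw [hp]; positivity
  have ht0 : 0 < t := by linarith
  obtain ⟨μ, hμ⟩ : ∃ μ, μ = p + t + ρ := ⟨_, rfl⟩
  obtain ⟨e, he⟩ : ∃ e, e = 8 * t * (t - ρ) := ⟨_, rfl⟩
  rw [← hμ, ← he]
  have he0 : 0 ≤ e := by rw [he]; exact mul_nonneg (by linarith) (by linarith)
  have he1 : e ≤ t - ρ := by
    rw [he]
    have : 0 ≤ (1 - 8 * t) * (t - ρ) := mul_nonneg (by linarith) (by linarith)
    linarith
  have heμ : e ≤ μ := by linarith
  have hμ4 : μ ≤ 1 / 4 := by linarith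
  have hμ0 : 0 ≤ μ := by linarith
  obtain ⟨r, hr⟩ : ∃ r, r = 2 * ρ - p := ⟨_, rfl⟩
  rw [← hr]
  obtain ⟨τ, hτ⟩ : ∃ τ : ℝ⟦X⟧, τ = C p * (G1 ^ l * (kc μ + C e * YK μ)
    - C r * YK (l / 2 + μ)) := ⟨_, rfl⟩
  apply InW.intro (τ := τ)
  · intro n
    rw [hτ, coeff_C_mul, map_sub, coeff_C_mul]
    apply mul_nonneg hp0.le
    have m1 := LE_main hl he0 heμ hμ4 n
    rw [coeff_C_mul] at m1
    have m2 := abs_YK_le hl hμ0 hμ4 n
    have m3 := NN_G1_pow l n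
    have m4 : r * coeff n (YK (l / 2 + μ)) ≤ |r| * (4 * coeff n (G1 ^ l)) := by
      refine (le_abs_self _).trans ?_
      rw [abs_mul]
      exact mul_le_mul_of_nonneg_left m2 (abs_nonneg _)
    have m5 : 4 * |r| ≤ 1 - μ - 9 / 2 * e := by
      have : |r| ≤ (1 - μ - 9 / 2 * e) / 4 := by
        rw [abs_le]; constructor <;> linarith
      linarith
    have m6 := mul_le_mul_of_nonneg_right m5 m3
    linarith
  · have sτ : S τ = C p * ((1 + X) ^ l * Ex (-(l / 2)) *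
        ((1 + C μ * (X - 1)) * Ex (-μ) + C e * ((X - 1) ^ 2 * Ex (-μ)))
        - C r * ((X - 1) ^ 2 * (Ex (-(l / 2)) * Ex (-μ)))) := by
      have y1 : S (YK ((l : ℝ) / 2 + μ)) = (X - 1) ^ 2 * (Ex (-(l / 2)) * Ex (-μ)) := by
        rw [S_YK, neg_add, Ex_add]
      rw [hτ, map_mul, S_C, map_sub, map_mul S (G1 ^ l), S_G1_pow, map_add, S_kc, map_mul, S_C,
        S_YK, map_mul, S_C, y1]
    rw [sτ]
    have x1 : Ex ((l : ℝ) / 2) * Ex (-((l : ℝ) / 2)) = 1 := Ex_mul_neg _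
    have x2 : Ex μ * Ex (-μ) = 1 := Ex_mul_neg _
    have k1 : (1 + C (1 / 2) * (X - 1) : ℝ⟦X⟧) = C (1 / 2) * (1 + X) := by
      have e1 : (1 : ℝ⟦X⟧) = C (1 / 2) + C (1 / 2) := by rw [← map_add]; norm_num
      linear_combination e1
    have k2 : C (1 / 2) * (1 + C (1 / 2) * (X - 1) : ℝ⟦X⟧) ^ l = C p * (1 + X) ^ l := by
      rw [k1, mul_pow, ← map_pow, ← mul_assoc, ← map_mul]
      congr 2
      rw [hp]; ring
    have k3 : C (p * r) = C p * (C r : ℝ⟦X⟧) := by rw [map_mul]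
    rw [k2, k3, Ex_add]
    obtain ⟨u1, hu1⟩ : ∃ u, u = Ex ((l : ℝ) / 2) := ⟨_, rfl⟩
    obtain ⟨u2, hu2⟩ : ∃ u, u = Ex (-((l : ℝ) / 2)) := ⟨_, rfl⟩
    obtain ⟨u3, hu3⟩ : ∃ u, u = Ex μ := ⟨_, rfl⟩
    obtain ⟨u4, hu4⟩ : ∃ u, u = Ex (-μ) := ⟨_, rfl⟩
    rw [← hu1, ← hu2, ← hu3, ← hu4]
    rw [← hu1, ← hu2] at x1
    rw [← hu3, ← hu4] at x2
    linear_combination (-(C p * (1 + X) ^ l * (1 + C μ * (X - 1) + C e * (X - 1) ^ 2))
        + C p * C r * (X - 1) ^ 2) * (u3 * u4) * x1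
      + (-(C p * (1 + X) ^ l * (1 + C μ * (X - 1) + C e * (X - 1) ^ 2))
        + C p * C r * (X - 1) ^ 2) * x2

/-- **The claim `Z`**, at least four leaves -/
theorem zclaim4 {l : ℕ} {p t ρ : ℝ} (hl : 4 ≤ l) (hp : p = (1 / 2) ^ (l + 1)) (h4 : 2 * p ≤ t)
    (ht : t ≤ 1 / 8) (hρ : 0 ≤ ρ) (hρ2 : ρ ≤ t / 2) :
    InW (l / 2 + p + t + ρ) ((1 + C (1 / 2) * (X - 1)) ^ l *
      (1 + C (t + ρ) * (X - 1) + C (4 * t * (t - ρ)) * (X - 1) ^ 2)
      + C p * ((X - 1) * (1 + C (t - ρ) * (X - 1)))) := by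
  have hp0 : 0 < p := by rw [hp]; positivity
  have h1 := star_lemma (List.replicate l (1 / 2)) (2 * p)
    (by
      intro s hs
      rw [List.eq_of_mem_replicate hs]
      norm_num)
    (by linarith)
    (by rw [List.length_replicate, hp, pow_succ]; linarith)
  rw [prodC_rep, List.sum_replicate, nsmul_eq_mul] at h1
  have h2 : InW (t + ρ - p) (1 + C (t + ρ - p) * (X - 1)) := InW.coin (by linarith)
  have h3 := InW.smul (by norm_num : (0 : ℝ) ≤ 1 / 2) (h1.mul h2)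
  have h5 := h3.add ((inW_rem hl hp h4 ht hρ hρ2).congr (by ring) rfl)
  refine h5.congr (by ring) ?_
  have c1 : C (t + ρ - p) = C t + C ρ - (C p : ℝ⟦X⟧) := by rw [map_sub, map_add]
  have c2 : C (2 * p) = 2 * (C p : ℝ⟦X⟧) := by
    rw [map_mul]; congr 1
  have c3 : C (p + t + ρ) = C p + C t + (C ρ : ℝ⟦X⟧) := by rw [map_add, map_add]
  have c4 : C (8 * t * (t - ρ)) = 8 * (C t * (C t - (C ρ : ℝ⟦X⟧))) := by
    rw [mul_assoc, map_mul, map_mul, map_sub]; congr 1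
  have c5 : C (4 * t * (t - ρ)) = 4 * (C t * (C t - (C ρ : ℝ⟦X⟧))) := by
    rw [mul_assoc, map_mul, map_mul, map_sub]; congr 1
  have c6 : C (p * (2 * ρ - p)) = C p * (2 * C ρ - (C p : ℝ⟦X⟧)) := by
    rw [map_mul, map_sub, map_mul]; congr 3
  have c7 : C (t + ρ) = C t + (C ρ : ℝ⟦X⟧) := by rw [map_add]
  have c8 : C (t - ρ) = C t - (C ρ : ℝ⟦X⟧) := by rw [map_sub]
  have c9 : (2 : ℝ⟦X⟧) * C (1 / 2) = 1 := by
    have : (C (2 : ℝ) : ℝ⟦X⟧) = 2 := map_ofNat C 2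
    rw [← this, ← map_mul]; norm_num
  rw [c1, c2, c3, c4, c5, c6, c7, c8]
  obtain ⟨κ, hκ⟩ : ∃ κ : ℝ⟦X⟧, κ = (1 + C (1 / 2) * (X - 1)) ^ l := ⟨_, rfl⟩
  rw [← hκ]
  linear_combination (κ * (1 + (C t + C ρ) * (X - 1) + 4 * (C t * (C t - C ρ)) * (X - 1) ^ 2)
    + C p * (X - 1) * (1 + (C t + C ρ - C p) * (X - 1))) * c9

/-- **The claim `Z`** -/
theorem zclaim {l : ℕ} {p t ρ : ℝ} (hp : p = (1 / 2) ^ (l + 1)) (h4 : 4 * p ≤ t)
    (ht : t ≤ 1 / 8) (hρ : 0 ≤ ρ) (hρ2 : ρ ≤ t / 2) :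
    InW (l / 2 + p + t + ρ) ((1 + C (1 / 2) * (X - 1)) ^ l *
      (1 + C (t + ρ) * (X - 1) + C (4 * t * (t - ρ)) * (X - 1) ^ 2)
      + C p * ((X - 1) * (1 + C (t - ρ) * (X - 1)))) := by
  have hp0 : 0 < p := by rw [hp]; positivity
  refine zclaim4 ?_ hp (by linarith) ht hρ hρ2
  by_contra hneg
  push Not at hneg
  have : ((1 : ℝ) / 2) ^ 4 ≤ (1 / 2) ^ (l + 1) :=
    pow_le_pow_of_le_one (by norm_num) (by norm_num) (by omega)
  rw [← hp] at this
  norm_num at this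
  linarith

end Pool.Agent.Lib_helper6.SRC
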